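import Pool.Agent.N681.AI.A1
import Pool.Agent.H319R3.DN.T5pre
import Pool.Agent.H319R3.DN.T4

/-! Equidistribution of almost invariant sets in residue classes. -/

set_option autoImplicit false

namespace Pool.Agent.N681.AI
open Pool.Agent.H319R3.GC Pool.Agent.H319R3.DN Finset

variable {d : ℕ} {m r : ℕ → ℤ}

open scoped Classical in
/-- statement of `group_diff` (task T3) -/
def GD (d : ℕ) (m r : ℕ → ℤ) (c₀ K₀ : ℝ) : Prop := ∀ {S : Set ℤ}, AInv d m r c₀ S → ∀ {τ : ℤ},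
    (τ = 1 ∨ τ = -1) → ∀ {a : ℝ}, 0 < a → ∀ {k Q Q₀ : ℕ}, 0 < Q → 0 < Q₀ → Q₀ ∣ Q →
    Nat.Coprime Q d → (d : ℝ) ^ k * Q ≤ a → K₀ * (d : ℝ) ^ k ≤ a →
    ∀ (c₁ c₂ : ℤ) {M : ℤ}, M ∈ Ms d m k →
    Q₀ ∣ M.natAbs → ∀ {a' : ℝ}, a' = |(M : ℝ)| * a / (d : ℝ) ^ k →
    |({x : ℤ | x ∈ S ∧ (Q : ℤ) ∣ x - c₁ ∧ Mw m (wd d m r k x) = M ∧
        a' ≤ ((τ * (Tm d m r)^[k] x : ℤ) : ℝ) ∧ ((τ * (Tm d m r)^[k] x : ℤ) : ℝ) < 2 * a'}.ncard : ℝ)
      - ({x : ℤ | x ∈ S ∧ (Q : ℤ) ∣ x - c₂ ∧ Mw m (wd d m r k x) = M ∧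
        a' ≤ ((τ * (Tm d m r)^[k] x : ℤ) : ℝ) ∧ ((τ * (Tm d m r)^[k] x : ℤ) : ℝ) < 2 * a'}.ncard : ℝ)|
      ≤ 4 * a / ((d : ℝ) ^ k * Q) * tv (gr d m k M) (Ww d m r) Q₀ (M.natAbs * Q)

open scoped Classical in
/-- the comparison of two classes -/
theorem t5_count {c₀ K₀ : ℝ} (hWG : T5WG d m r) (hGD : GD d m r c₀ K₀) {S : Set ℤ}
    (hS : AInv d m r c₀ S) {σ : ℤ} (hσ : σ = 1 ∨ σ = -1)
    {a : ℝ} (ha : 0 < a) {k Q Q₀ i₁ i₂ : ℕ} (hQ : 0 < Q) (hQ₀ : 0 < Q₀) (hQQ : Q₀ ∣ Q)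
    (hQi : Q₀ ∣ PP d m ^ i₁) (hP0 : 0 < PP d m) (hQd : Nat.Coprime Q d)
    (hk : (d : ℝ) ^ k * Q ≤ a) (hk0 : K₀ * (d : ℝ) ^ k ≤ a) (c₁ c₂ : ℤ)
    (Bad : Finset (List ℕ)) {V : ℝ}
    (hV0 : 0 ≤ V) (hVa : (d : ℝ) ^ k * V < a)
    (hV : ∀ w ∈ LW d k, w ∉ Bad → |(Ww d m r w : ℝ)| ≤ (d : ℝ) ^ k * V)
    (hcnt : ∀ w ∈ LW d k, w ∉ Bad → PP d m ^ i₁ ∣ (Mw m w).natAbs ∧ (Mw m w).natAbs ∣ PP d m ^ i₂) :
    |nw S σ a (2 * a) Q c₁ - nw S σ a (2 * a) Q c₂| ≤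
      2 * (Bad.card * (4 * a / ((d : ℝ) ^ k * Q)) + 8 * ((d : ℝ) ^ k * V / Q + 1))
      + 4 * a / ((d : ℝ) ^ k * Q) *
        ∑ M ∈ (Ms d m k).filter (fun M => PP d m ^ i₁ ∣ M.natAbs ∧ M.natAbs ∣ PP d m ^ i₂),
          tv (gr d m k M) (Ww d m r) Q₀ (M.natAbs * Q) := by
  have w1 := hWG S hσ ha hQ hQd hk c₁ Bad hV0 hVa hV hcnt
  have w2 := hWG S hσ ha hQ hQd hk c₂ Bad hV0 hVa hV hcnt
  set F := (Ms d m k).filter (fun M => PP d m ^ i₁ ∣ M.natAbs ∧ M.natAbs ∣ PP d m ^ i₂) with hF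
  obtain ⟨G, hG⟩ : ∃ G : ℤ → ℤ → ℝ, G = fun c M =>
    ({x : ℤ | x ∈ S ∧ (Q : ℤ) ∣ x - c ∧ Mw m (wd d m r k x) = M ∧
          |(M : ℝ)| * a / (d : ℝ) ^ k ≤ ((σ * M.sign * (Tm d m r)^[k] x : ℤ) : ℝ) ∧
          ((σ * M.sign * (Tm d m r)^[k] x : ℤ) : ℝ) < 2 * (|(M : ℝ)| * a / (d : ℝ) ^ k)}.ncard : ℝ) :=
    ⟨_, rfl⟩
  have w1' : |nw S σ a (2 * a) Q c₁ - ∑ M ∈ F, G c₁ M| ≤
      Bad.card * (4 * a / ((d : ℝ) ^ k * Q)) + 8 * ((d : ℝ) ^ k * V / Q + 1) := by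
    rw [hG]; exact w1
  have w2' : |nw S σ a (2 * a) Q c₂ - ∑ M ∈ F, G c₂ M| ≤
      Bad.card * (4 * a / ((d : ℝ) ^ k * Q)) + 8 * ((d : ℝ) ^ k * V / Q + 1) := by
    rw [hG]; exact w2
  have w3 : |∑ M ∈ F, G c₁ M - ∑ M ∈ F, G c₂ M| ≤ 4 * a / ((d : ℝ) ^ k * Q) *
      ∑ M ∈ F, tv (gr d m k M) (Ww d m r) Q₀ (M.natAbs * Q) := by
    rw [← Finset.sum_sub_distrib, Finset.mul_sum]
    refine (Finset.abs_sum_le_sum_abs _ _).trans (Finset.sum_le_sum ?_)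
    intro M hM
    rw [hF, Finset.mem_filter] at hM
    obtain ⟨hMs, hM1, hM2⟩ := hM
    have hM0 : M ≠ 0 := by
      have := Nat.pos_of_dvd_of_pos hM2 (pow_pos hP0 _)
      exact Int.natAbs_pos.1 this
    have hτ : σ * M.sign = 1 ∨ σ * M.sign = -1 := by
      rcases lt_or_gt_of_ne hM0 with h1 | h1
      · rw [Int.sign_eq_neg_one_of_neg h1]
        rcases hσ with h2 | h2 <;> rw [h2] <;> norm_num
      · rw [Int.sign_eq_one_of_pos h1]
        rcases hσ with h2 | h2 <;> rw [h2] <;> norm_num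
    have := hGD hS hτ ha hQ hQ₀ hQQ hQd hk hk0 c₁ c₂ hMs (hQi.trans hM1)
      (a' := |(M : ℝ)| * a / (d : ℝ) ^ k) rfl
    rw [hG]
    exact this
  have w1a := abs_le.1 w1'
  have w2a := abs_le.1 w2'
  have w3a := abs_le.1 w3
  rw [abs_le]
  constructor <;> linarith [w1a.1, w1a.2, w2a.1, w2a.2, w3a.1, w3a.2]

open scoped Classical in
/-- T5: equidistribution in residue classes, from `window_groups` and `group_diff` -/
theorem equi_of {c₀ K₀ : ℝ} (hWG : T5WG d m r) (hGD : GD d m r c₀ K₀) (h : Adm d m r) (B : ℕ) :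
    ∃ ν L₀ C : ℝ, 0 < ν ∧ 1 ≤ L₀ ∧ 0 < C ∧
    ∀ S : Set ℤ, AInv d m r c₀ S → ∀ σ : ℤ, (σ = 1 ∨ σ = -1) → ∀ a : ℝ, 0 < a → L₀ ≤ Real.log a →
      ∀ c₁ c₂ : ℤ,
      |nw S σ a (2 * a) (PP d m ^ ⌊ν * Real.log a⌋₊) c₁
        - nw S σ a (2 * a) (PP d m ^ ⌊ν * Real.log a⌋₊) c₂|
        ≤ C / (Real.log a) ^ B * (a / (PP d m ^ ⌊ν * Real.log a⌋₊ : ℕ)) := by
  have hd2 : 2 ≤ d := h.two_le
  have hdR2 : (2 : ℝ) ≤ d := by exact_mod_cast hd2
  have hdR0 : (0 : ℝ) < d := by linarith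
  have hPR2 : (2 : ℝ) ≤ PP d m := by exact_mod_cast h.big
  have hPR0 : (0 : ℝ) < PP d m := by linarith
  have hP0 : 0 < PP d m := by have := h.big; omega
  have hld : 1 / 2 < Real.log d := by
    have h1 : Real.log 2 ≤ Real.log d := Real.log_le_log (by norm_num) hdR2
    have h2 := Real.log_two_gt_d9
    linarith
  have hld0 : 0 < Real.log d := by linarith
  have hlP : 0 < Real.log (PP d m) := Real.log_pos (by linarith)
  have hc : Real.log (PP d m) < d * Real.log d := by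
    have h1 : ((PP d m : ℕ) : ℝ) < (d : ℝ) ^ d := by exact_mod_cast h.contr
    have h2 := Real.log_lt_log hPR0 h1
    rwa [Real.log_pow] at h2
  obtain ⟨δ, hδ0, hδ1, htv⟩ := tv_groups h B
  obtain ⟨hi, ν, η, L₀, hhi1, hhi2, hν0, hη0, hη1, hL, hpar⟩ :=
    t5_params (D := d) (ld := Real.log d) (lP := Real.log (PP d m)) hdR2 hld hlP hc hδ0 hδ1
  obtain ⟨Ct, hCt, htvC⟩ := htv (ν * Real.log d / 8) (by positivity)
  obtain ⟨ct, hct, htyp⟩ := typical hd2 (η := η / d) (by positivity)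
  obtain ⟨lam, Cm, hlam, hCm, hmom⟩ := moment h
  obtain ⟨K1, hK1, hexp1⟩ := s3_exp (ct / √(2 * Real.log d)) (by positivity) B
  obtain ⟨K2, hK2, hexp2⟩ := s3_exp (lam / √(2 * Real.log d)) (by positivity) B
  obtain ⟨K3, hK3, hexp3⟩ := s3_exp 1 one_pos B
  set C : ℝ := 8 * (2 * d * K1 + Cm * K2) + 32 * K3 + 4 * (Ct * (2 * Real.log d) ^ B) with hC
  have hC0 : 0 < C := by positivity
  refine ⟨ν, max L₀ (4 * Real.log (max K₀ 1)), C, hν0, le_max_of_le_left (by linarith), hC0, ?_⟩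
  intro S hS σ hσ a ha hLa' c₁ c₂
  have hLa : L₀ ≤ Real.log a := (le_max_left _ _).trans hLa'
  have hLK : 4 * Real.log (max K₀ 1) ≤ Real.log a := (le_max_right _ _).trans hLa'
  set t : ℝ := Real.log a with ht
  have ht144 : 144 ≤ t := hL.trans hLa
  have ht0 : 0 < t := by linarith
  have haexp : a = Real.exp t := (Real.exp_log ha).symm
  obtain ⟨hk1, hνk, hq0q, hqk, hi12, hi2q, hi1q, hqlP, hk2, hkle, hq0i, -⟩ :=
    hpar t hLa _ _ _ _ _ rfl rfl rfl rfl rfl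
  set k : ℕ := ⌊3 / 4 * t / Real.log d⌋₊ with hk
  set q : ℕ := ⌊ν * t⌋₊ with hq
  set q₀ : ℕ := ⌊ν * (t / 4)⌋₊ with hq₀
  set i₁ : ℕ := ⌊(1 - η) * k / d⌋₊ with hi₁
  set i₂ : ℕ := ⌈(1 + η) * k / d⌉₊ with hi₂
  have hkR1 : (1 : ℝ) ≤ k := by exact_mod_cast hk1
  have hkR0 : (0 : ℝ) < k := by linarith
  -- exponentials
  have hdk : (d : ℝ) ^ k = Real.exp (k * Real.log d) := by
    rw [Real.exp_nat_mul, Real.exp_log hdR0]
  have hPq : ((PP d m ^ q : ℕ) : ℝ) = Real.exp (q * Real.log (PP d m)) := by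
    rw [Real.exp_nat_mul, Real.exp_log hPR0, Nat.cast_pow]
  have hdk0 : (0 : ℝ) < (d : ℝ) ^ k := by positivity
  have hQ0 : 0 < PP d m ^ q := pow_pos hP0 q
  have hQR : (0 : ℝ) < ((PP d m ^ q : ℕ) : ℝ) := by exact_mod_cast hQ0
  have hst : √t * √t = t := Real.mul_self_sqrt ht0.le
  have hst12 : 12 ≤ √t := by
    apply Real.le_sqrt_of_sq_le; linarith
  have hkQ : (d : ℝ) ^ k * ((PP d m ^ q : ℕ) : ℝ) ≤ a := by
    rw [hdk, hPq, haexp, ← Real.exp_add]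
    apply Real.exp_le_exp.2
    linarith
  have hk4 : (k : ℝ) ≤ 4 * t := by
    have : (k : ℝ) * (1 / 2) ≤ k * Real.log d := mul_le_mul_of_nonneg_left hld.le hkR0.le
    linarith
  have hsk : √(k : ℝ) ≤ 2 * √t := by
    have h1 : √(k : ℝ) ≤ √(4 * t) := Real.sqrt_le_sqrt hk4
    have h2 : √(4 * t) = 2 * √t := by
      rw [Real.sqrt_mul (by norm_num), show (4 : ℝ) = 2 ^ 2 by norm_num,
        Real.sqrt_sq (by norm_num)]
    rwa [h2] at h1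
  have hE : (d : ℝ) ^ k * Real.exp (√(k : ℝ)) ≤ a * Real.exp (-(1 * √t)) := by
    rw [hdk, haexp, ← Real.exp_add, ← Real.exp_add]
    apply Real.exp_le_exp.2
    nlinarith
  have hQa : ((PP d m ^ q : ℕ) : ℝ) ≤ a * Real.exp (-(1 * √t)) := by
    rw [hPq, haexp, ← Real.exp_add]
    apply Real.exp_le_exp.2
    nlinarith
  have hexple : Real.exp (-(1 * √t)) < 1 := by
    rw [Real.exp_lt_one_iff]
    linarith
  have hskge : √t / √(2 * Real.log d) ≤ √(k : ℝ) := by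
    rw [← Real.sqrt_div ht0.le]
    apply Real.sqrt_le_sqrt
    rw [div_le_iff₀ (by positivity)]
    linarith
  -- small terms
  have hs1 : Real.exp (-(ct * k)) ≤ K1 / t ^ B := by
    refine le_trans (Real.exp_le_exp.2 ?_) (hexp1 t ht0)
    have h1 : √(k : ℝ) ≤ k := by
      have h2 : √(k : ℝ) * √(k : ℝ) = k := Real.mul_self_sqrt hkR0.le
      have h3 : 1 ≤ √(k : ℝ) := Real.one_le_sqrt.2 hkR1
      nlinarith
    have h4 : ct / √(2 * Real.log d) * √t = ct * (√t / √(2 * Real.log d)) := by ring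
    rw [h4]
    have h5 : ct * (√t / √(2 * Real.log d)) ≤ ct * k :=
      mul_le_mul_of_nonneg_left (hskge.trans h1) hct.le
    linarith
  have hs2 : Real.exp (-(lam * √(k : ℝ))) ≤ K2 / t ^ B := by
    refine le_trans (Real.exp_le_exp.2 ?_) (hexp2 t ht0)
    have h4 : lam / √(2 * Real.log d) * √t = lam * (√t / √(2 * Real.log d)) := by ring
    rw [h4]
    have h5 := mul_le_mul_of_nonneg_left hskge hlam.le
    linarith
  have hs3 : Real.exp (-(1 * √t)) ≤ K3 / t ^ B := hexp3 t ht0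
  have hs4 : 1 / (k : ℝ) ^ B ≤ (2 * Real.log d) ^ B / t ^ B := by
    rw [div_le_div_iff₀ (by positivity) (by positivity), one_mul, ← mul_pow]
    apply pow_le_pow_left₀ ht0.le
    linarith
  -- the bad words
  set Bad : Finset (List ℕ) :=
    ((LW d k).filter fun w => ∃ i < d, η / d * k < |(w.count i : ℝ) - k / d|) ∪
    ((LW d k).filter fun w => (d : ℝ) ^ k * Real.exp (√(k : ℝ)) < |(Ww d m r w : ℝ)|) with hBad
  have hBadcard : (Bad.card : ℝ) ≤ (d : ℝ) ^ k *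
      (2 * d * Real.exp (-(ct * k)) + Cm * Real.exp (-(lam * √(k : ℝ)))) := by
    have h1 : (Bad.card : ℝ) ≤
        (((LW d k).filter fun w => ∃ i < d, η / d * k < |(w.count i : ℝ) - k / d|).card : ℝ) +
        (((LW d k).filter fun w =>
          (d : ℝ) ^ k * Real.exp (√(k : ℝ)) < |(Ww d m r w : ℝ)|).card : ℝ) := by
      rw [← Nat.cast_add]
      exact Nat.cast_le.2 (Finset.card_union_le _ _)
    have h2 := htyp k
    have h3 := hmom k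
    have h4 : (d : ℝ) ^ k * (2 * d * Real.exp (-(ct * k)) + Cm * Real.exp (-(lam * √(k : ℝ))))
      = 2 * d * ((d : ℝ) ^ k * Real.exp (-(ct * k)))
        + Cm * (d : ℝ) ^ k * Real.exp (-(lam * √(k : ℝ))) := by ring
    rw [h4]
    exact h1.trans (add_le_add h2 h3)
  have hV : ∀ w ∈ LW d k, w ∉ Bad → |(Ww d m r w : ℝ)| ≤ (d : ℝ) ^ k * Real.exp (√(k : ℝ)) := by
    intro w hw hwB
    by_contra hcon
    rw [not_le] at hcon
    exact hwB (Finset.mem_union_right _ (Finset.mem_filter.2 ⟨hw, hcon⟩))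
  have hcnt : ∀ w ∈ LW d k, w ∉ Bad →
      PP d m ^ i₁ ∣ (Mw m w).natAbs ∧ (Mw m w).natAbs ∣ PP d m ^ i₂ := by
    intro w hw hwB
    have hcw : ∀ i < d, |(w.count i : ℝ) - k / d| ≤ η / d * k := by
      intro i hid
      by_contra hcon
      rw [not_le] at hcon
      exact hwB (Finset.mem_union_left _ (Finset.mem_filter.2 ⟨hw, i, hid, hcon⟩))
    constructor
    · apply dvd_Mw hw
      intro i hid
      have h1 := (abs_le.1 (hcw i hid)).1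
      rw [hi₁]
      apply Nat.floor_le_of_le
      have e : (1 - η) * (k : ℝ) / d = k / d - η / d * k := by ring
      rw [e]
      linarith
    · apply Mw_dvd hw
      intro i hid
      have h1 := (abs_le.1 (hcw i hid)).2
      have h2 : (w.count i : ℝ) ≤ i₂ := by
        refine le_trans ?_ (Nat.le_ceil _)
        have e : (1 + η) * (k : ℝ) / d = k / d + η / d * k := by ring
        rw [e]
        linarith
      exact_mod_cast h2
  have hK0 : K₀ * (d : ℝ) ^ k ≤ a := by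
    have g1 : (0 : ℝ) < max K₀ 1 := lt_of_lt_of_le one_pos (le_max_right _ _)
    have g2 : K₀ ≤ Real.exp (Real.log (max K₀ 1)) := by
      rw [Real.exp_log g1]; exact le_max_left _ _
    refine (mul_le_mul_of_nonneg_right g2 hdk0.le).trans ?_
    rw [hdk, haexp, ← Real.exp_add]
    apply Real.exp_le_exp.2
    linarith
  have hcount := t5_count hWG hGD hS hσ ha (k := k) (Q := PP d m ^ q) (Q₀ := PP d m ^ q₀) (i₁ := i₁)
    (i₂ := i₂) hQ0 (pow_pos hP0 _) (pow_dvd_pow _ hq0q) (pow_dvd_pow _ hq0i) hP0 ?_ hkQ hK0 c₁ c₂ Bad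
    (V := Real.exp (√(k : ℝ))) (Real.exp_pos _).le ?_ hV hcnt
  · have htvk := htvC k i₁ i₂ q₀ q hk1 hνk hq0q hqk hi12 hi2q hi1q
    set T : ℝ := ∑ M ∈ (Ms d m k).filter
      (fun M => PP d m ^ i₁ ∣ M.natAbs ∧ M.natAbs ∣ PP d m ^ i₂),
        tv (gr d m k M) (Ww d m r) (PP d m ^ q₀) (M.natAbs * PP d m ^ q) with hT
    set Q : ℝ := ((PP d m ^ q : ℕ) : ℝ) with hQdef
    set u : ℝ := a / Q with hu
    have hu0 : 0 < u := by positivity
    have e1 : 4 * a / ((d : ℝ) ^ k * Q) = 4 * u / (d : ℝ) ^ k := by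
      rw [hu]; field_simp
    have t1 : (Bad.card : ℝ) * (4 * a / ((d : ℝ) ^ k * Q)) ≤ (2 * d * (K1 / t ^ B) + Cm * (K2 / t ^ B)) * (4 * u) := by
      rw [e1]
      have h1 : (Bad.card : ℝ) ≤ (d : ℝ) ^ k * (2 * d * (K1 / t ^ B) + Cm * (K2 / t ^ B)) := by
        refine hBadcard.trans (mul_le_mul_of_nonneg_left ?_ hdk0.le)
        exact add_le_add (mul_le_mul_of_nonneg_left hs1 (by positivity))
          (mul_le_mul_of_nonneg_left hs2 hCm.le)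
      have h2 := mul_le_mul_of_nonneg_right h1 (show (0 : ℝ) ≤ 4 * u / (d : ℝ) ^ k by positivity)
      refine h2.trans (le_of_eq ?_)
      field_simp
    have t2 : 8 * ((d : ℝ) ^ k * Real.exp (√(k : ℝ)) / Q + 1) ≤ 16 * (K3 / t ^ B) * u := by
      have h1 : (d : ℝ) ^ k * Real.exp (√(k : ℝ)) / Q ≤ u * Real.exp (-(1 * √t)) := by
        rw [hu, div_mul_eq_mul_div]
        exact div_le_div_of_nonneg_right hE hQR.le
      have h2 : 1 ≤ u * Real.exp (-(1 * √t)) := by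
        rw [hu, div_mul_eq_mul_div, le_div_iff₀ hQR, one_mul]
        exact hQa
      have h3 : u * Real.exp (-(1 * √t)) ≤ u * (K3 / t ^ B) :=
        mul_le_mul_of_nonneg_left hs3 hu0.le
      linarith
    have t4 : 4 * a / ((d : ℝ) ^ k * Q) * T ≤ 4 * (Ct * ((2 * Real.log d) ^ B / t ^ B)) * u := by
      rw [e1]
      have h1 : T ≤ Ct * (d : ℝ) ^ k * (1 / (k : ℝ) ^ B) := by
        refine htvk.trans (le_of_eq ?_); ring
      have h2 : T ≤ Ct * (d : ℝ) ^ k * ((2 * Real.log d) ^ B / t ^ B) :=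
        h1.trans (mul_le_mul_of_nonneg_left hs4 (by positivity))
      have h3 := mul_le_mul_of_nonneg_left h2 (show (0 : ℝ) ≤ 4 * u / (d : ℝ) ^ k by positivity)
      refine h3.trans (le_of_eq ?_)
      field_simp
    have hCexp : C / t ^ B = 8 * (2 * d * (K1 / t ^ B) + Cm * (K2 / t ^ B)) + 32 * (K3 / t ^ B)
        + 4 * (Ct * ((2 * Real.log d) ^ B / t ^ B)) := by
      rw [hC]; ring
    have hfin : 2 * ((2 * d * (K1 / t ^ B) + Cm * (K2 / t ^ B)) * (4 * u) + 16 * (K3 / t ^ B) * u)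
        + 4 * (Ct * ((2 * Real.log d) ^ B / t ^ B)) * u = C / t ^ B * u := by
      rw [hCexp]; ring
    rw [← hfin]
    linarith
  · -- coprimality
    apply Nat.Coprime.pow_left
    unfold PP
    apply Nat.Coprime.prod_left
    intro i hir
    have := h.cop i (Finset.mem_range.1 hir)
    rw [Int.isCoprime_iff_gcd_eq_one] at this
    have h2 : Int.gcd (m i) (d : ℤ) = Nat.gcd (m i).natAbs d := by
      rw [Int.gcd_def]; simp
    rw [h2] at this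
    exact this
  · calc (d : ℝ) ^ k * Real.exp (√(k : ℝ)) ≤ a * Real.exp (-(1 * √t)) := hE
      _ < a * 1 := mul_lt_mul_of_pos_left hexple ha
      _ = a := mul_one a


/-- equidistribution of almost invariant sets in residue classes -/
theorem equi (h : Adm d m r) {c₀ : ℝ} (B : ℕ) : ∃ ν L₀ C : ℝ, 0 < ν ∧ 1 ≤ L₀ ∧ 0 < C ∧
    ∀ S : Set ℤ, AInv d m r c₀ S → ∀ σ : ℤ, (σ = 1 ∨ σ = -1) → ∀ a : ℝ, 0 < a → L₀ ≤ Real.log a →
      ∀ c₁ c₂ : ℤ,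
      |nw S σ a (2 * a) (PP d m ^ ⌊ν * Real.log a⌋₊) c₁
        - nw S σ a (2 * a) (PP d m ^ ⌊ν * Real.log a⌋₊) c₂|
        ≤ C / (Real.log a) ^ B * (a / (PP d m ^ ⌊ν * Real.log a⌋₊ : ℕ)) := by
  classical
  obtain ⟨Rb, hR0, hR⟩ : ∃ Rb : ℝ, 0 ≤ Rb ∧ ∀ i < d, |(r i : ℝ)| ≤ Rb := by
    refine ⟨∑ i ∈ range d, |(r i : ℝ)|, Finset.sum_nonneg fun _ _ => abs_nonneg _, fun i hi => ?_⟩
    exact Finset.single_le_sum (f := fun i => |(r i : ℝ)|) (fun _ _ => abs_nonneg _)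
      (Finset.mem_range.2 hi)
  refine equi_of (d := d) (m := m) (r := r) (c₀ := c₀) (K₀ := c₀ + Rb) ?_ ?_ h B
  · intro S σ hσ a ha k Q i₁ i₂ hQ hQd hk c Bad V hV0 hVa hV hcnt
    convert window_groups h S hσ ha hQ hQd hk c Bad hV0 hVa hV hcnt
  · intro S hS τ hτ a ha k Q Q₀ hQ hQ₀ hQQ hQd hk hk0 c₁ c₂ M hM hQM a' ha'
    convert group_diff h hR hR0 hS hτ ha hQ hQ₀ hQQ hQd hk hk0 c₁ c₂ hM hQM ha'

end Pool.Agent.N681.AI
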