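import Pool.Agent.N681.AI.A4
import Pool.Agent.W39.MolCond

/-!
The orbits with a given minimum and the orbits which leave the positive integers are almost invariant
sets.
-/

set_option autoImplicit false

namespace Pool.Agent.N681.AI
open Pool.Agent.H319R3.GC Pool.Agent.H319R3.DN Finset Filter Topology

variable {d : ℕ} {m r : ℕ → ℤ}

theorem exists_Rb (d : ℕ) (r : ℕ → ℤ) : ∃ Rb : ℝ, 0 ≤ Rb ∧ ∀ i < d, |(r i : ℝ)| ≤ Rb :=
  ⟨∑ i ∈ range d, |(r i : ℝ)|, Finset.sum_nonneg fun _ _ => abs_nonneg _, fun i hi =>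
    Finset.single_le_sum (f := fun i => |(r i : ℝ)|) (fun _ _ => abs_nonneg _)
      (Finset.mem_range.2 hi)⟩

theorem m_ne0 (h : Adm d m r) {i : ℕ} (hi : i < d) : m i ≠ 0 := by
  intro h0
  have hc := h.cop i hi
  rw [h0, isCoprime_zero_left] at hc
  have h2 := h.two_le
  rcases Int.isUnit_iff.mp hc with h1 | h1 <;> omega

/-- one step: `T` divides at most by `d` -/
theorem step_lower (h : Adm d m r) {Rb : ℝ} (hR : ∀ i < d, |(r i : ℝ)| ≤ Rb) (x : ℤ) :
    |(x : ℝ)| ≤ d * |((Tm d m r x : ℤ) : ℝ)| + Rb := by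
  have h1 := Pool.Agent.W39.Tm_eq h x
  obtain ⟨h2, h3⟩ := Pool.Agent.W39.toNat_mod h.two_le x
  have hm := m_ne0 h h3
  have hm1 : (1 : ℝ) ≤ |(m (x % d).toNat : ℝ)| := by
    have : (1 : ℤ) ≤ |m (x % d).toNat| := Int.one_le_abs hm
    exact_mod_cast this
  have hr := hR _ h3
  have hd0 : (0 : ℝ) ≤ d := by positivity
  have e : (m (x % d).toNat : ℝ) * x = d * ((Tm d m r x : ℤ) : ℝ) + r (x % d).toNat := by
    have : (d : ℝ) * ((Tm d m r x : ℤ) : ℝ) = (m (x % d).toNat : ℝ) * x - r (x % d).toNat := by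
      exact_mod_cast h1
    linarith
  calc |(x : ℝ)| ≤ |(m (x % d).toNat : ℝ)| * |(x : ℝ)| := le_mul_of_one_le_left (abs_nonneg _) hm1
    _ = |d * ((Tm d m r x : ℤ) : ℝ) + r (x % d).toNat| := by rw [← abs_mul, e]
    _ ≤ |d * ((Tm d m r x : ℤ) : ℝ)| + |(r (x % d).toNat : ℝ)| := abs_add_le _ _
    _ ≤ d * |((Tm d m r x : ℤ) : ℝ)| + Rb := by
        rw [abs_mul, abs_of_nonneg hd0]
        linarith

/-- `k` steps divide at most by `d^k` -/
theorem iter_lower (h : Adm d m r) {Rb : ℝ} (hR : ∀ i < d, |(r i : ℝ)| ≤ Rb) (hR0 : 0 ≤ Rb)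
    (k : ℕ) (x : ℤ) : |(x : ℝ)| + Rb ≤ (d : ℝ) ^ k * (|(((Tm d m r)^[k] x : ℤ) : ℝ)| + Rb) := by
  have hd2 : (2 : ℝ) ≤ d := by exact_mod_cast h.two_le
  induction k with
  | zero => simp
  | succ k ih =>
    refine ih.trans ?_
    rw [pow_succ, mul_assoc, Function.iterate_succ_apply']
    refine mul_le_mul_of_nonneg_left ?_ (by positivity)
    have h1 := step_lower h hR ((Tm d m r)^[k] x)
    nlinarith

/-- as long as the orbit is far from zero it does not change its sign -/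
theorem sign_step (h : Adm d m r) (hm : ∀ i < d, 0 < m i) {Rb : ℝ} (hR : ∀ i < d, |(r i : ℝ)| ≤ Rb)
    {x : ℤ} (hx : Rb < |(x : ℝ)|) : (0 < x → 0 < Tm d m r x) ∧ (x < 0 → Tm d m r x < 0) := by
  have h1 := Pool.Agent.W39.Tm_eq h x
  obtain ⟨h2, h3⟩ := Pool.Agent.W39.toNat_mod h.two_le x
  have hd0 : (0 : ℝ) < d := by exact_mod_cast (by have := h.two_le; omega : 0 < d)
  have hmi := hm _ h3
  have hm1 : (1 : ℝ) ≤ (m (x % d).toNat : ℝ) := by exact_mod_cast hmi
  have hr := abs_le.1 (hR _ h3)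
  have e : (d : ℝ) * ((Tm d m r x : ℤ) : ℝ) = (m (x % d).toNat : ℝ) * x - r (x % d).toNat := by
    exact_mod_cast h1
  constructor
  · intro h0
    have hx0 : (0 : ℝ) < x := by exact_mod_cast h0
    rw [abs_of_pos hx0] at hx
    have h4 : 0 < (d : ℝ) * ((Tm d m r x : ℤ) : ℝ) := by
      rw [e]
      nlinarith
    have := (mul_pos_iff_of_pos_left hd0).1 h4
    exact_mod_cast this
  · intro h0
    have hx0 : (x : ℝ) < 0 := by exact_mod_cast h0
    rw [abs_of_neg hx0] at hx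
    have h4 : (d : ℝ) * ((Tm d m r x : ℤ) : ℝ) < 0 := by
      rw [e]
      nlinarith
    have : ((Tm d m r x : ℤ) : ℝ) < 0 := by
      by_contra hcon
      push Not at hcon
      have := mul_nonneg hd0.le hcon
      linarith
    exact_mod_cast this

theorem sign_iter (h : Adm d m r) (hm : ∀ i < d, 0 < m i) {Rb : ℝ} (hR : ∀ i < d, |(r i : ℝ)| ≤ Rb)
    {x : ℤ} {k : ℕ} (hx : ∀ j < k, Rb < |(((Tm d m r)^[j] x : ℤ) : ℝ)|) :
    (0 < x → ∀ j ≤ k, 0 < (Tm d m r)^[j] x) ∧ (x < 0 → ∀ j ≤ k, (Tm d m r)^[j] x < 0) := by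
  constructor
  · intro h0 j
    induction j with
    | zero => intro _; exact h0
    | succ j ih =>
      intro hj
      rw [Function.iterate_succ_apply']
      exact (sign_step h hm hR (hx j (by omega))).1 (ih (by omega))
  · intro h0 j
    induction j with
    | zero => intro _; exact h0
    | succ j ih =>
      intro hj
      rw [Function.iterate_succ_apply']
      exact (sign_step h hm hR (hx j (by omega))).2 (ih (by omega))

/-- the first `k` terms of the orbit of a large starting point are far from zero -/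
theorem far_terms (h : Adm d m r) {Rb : ℝ} (hR : ∀ i < d, |(r i : ℝ)| ≤ Rb) (hR0 : 0 ≤ Rb)
    {B : ℝ} {k : ℕ} {x : ℤ} (hx : (B + Rb + 1) * (d : ℝ) ^ k ≤ |(x : ℝ)|) :
    ∀ j ≤ k, B < |(((Tm d m r)^[j] x : ℤ) : ℝ)| := by
  intro j hj
  have hd1 : (1 : ℝ) ≤ d := by exact_mod_cast (by have := h.two_le; omega : 1 ≤ d)
  have h1 := iter_lower h hR hR0 j x
  have hdj : (0 : ℝ) < (d : ℝ) ^ j := by positivity
  by_contra hcon
  push Not at hcon
  have h2 : (d : ℝ) ^ j * (|(((Tm d m r)^[j] x : ℤ) : ℝ)| + Rb) ≤ (d : ℝ) ^ j * (B + Rb) :=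
    mul_le_mul_of_nonneg_left (by linarith) hdj.le
  have h3 : (d : ℝ) ^ j ≤ (d : ℝ) ^ k := pow_le_pow_right₀ hd1 hj
  have hB0 : 0 ≤ B + Rb + 1 := by
    have := abs_nonneg (((Tm d m r)^[j] x : ℤ) : ℝ)
    linarith
  have h4 : (B + Rb + 1) * (d : ℝ) ^ j ≤ (B + Rb + 1) * (d : ℝ) ^ k :=
    mul_le_mul_of_nonneg_left h3 hB0
  nlinarith

/-- the orbits with minimum `e` -/
def Lm (d : ℕ) (m r : ℕ → ℤ) (e : ℤ) : Set ℤ :=
  {n : ℤ | (∀ k, e ≤ (Tm d m r)^[k] n) ∧ ∃ k, (Tm d m r)^[k] n = e}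

/-- the orbits which leave the positive integers -/
def Ng (d : ℕ) (m r : ℕ → ℤ) : Set ℤ := {n : ℤ | ∃ k, (Tm d m r)^[k] n ≤ 0}

theorem Lm_ainv (h : Adm d m r) (hm : ∀ i < d, 0 < m i) {e : ℤ} (he : 0 < e) :
    ∃ c₀ : ℝ, AInv d m r c₀ (Lm d m r e) := by
  obtain ⟨Rb, hR0, hR⟩ := exists_Rb d r
  refine ⟨(Rb + e) + Rb + 1, fun k x hx => ?_⟩
  have hf := far_terms h hR hR0 hx
  have heR : (0 : ℝ) < e := by exact_mod_cast he
  have hs := sign_iter h hm hR (x := x) (k := k) (fun j hj => by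
    have := hf j hj.le
    linarith)
  constructor
  · rintro ⟨h1, k', h2⟩
    refine ⟨fun j => ?_, ?_⟩
    · rw [← Function.iterate_add_apply]; exact h1 _
    · rcases le_or_gt k k' with h3 | h3
      · refine ⟨k' - k, ?_⟩
        rw [← Function.iterate_add_apply, Nat.sub_add_cancel h3]
        exact h2
      · exfalso
        have h4 := hf k' h3.le
        rw [h2, abs_of_pos heR] at h4
        linarith
  · rintro ⟨h1, k', h2⟩
    have hTk : 0 < (Tm d m r)^[k] x := lt_of_lt_of_le he (h1 0)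
    have hx0 : 0 < x := by
      rcases lt_trichotomy x 0 with h3 | h3 | h3
      · have := hs.2 h3 k le_rfl
        omega
      · exfalso
        have h4 := hf 0 (Nat.zero_le _)
        rw [h3] at h4
        simp only [Function.iterate_zero, id, Int.cast_zero, abs_zero] at h4
        linarith
      · exact h3
    refine ⟨fun j => ?_, k' + k, ?_⟩
    · rcases le_or_gt k j with h3 | h3
      · have := h1 (j - k)
        rwa [← Function.iterate_add_apply, Nat.sub_add_cancel h3] at this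
      · have h4 := hs.1 hx0 j h3.le
        have h5 := hf j h3.le
        have h6 : (0 : ℝ) < (((Tm d m r)^[j] x : ℤ) : ℝ) := by exact_mod_cast h4
        rw [abs_of_pos h6] at h5
        have h7 : (e : ℝ) < (((Tm d m r)^[j] x : ℤ) : ℝ) := by linarith
        exact le_of_lt (by exact_mod_cast h7)
    · rw [Function.iterate_add_apply]; exact h2

theorem Ng_ainv (h : Adm d m r) (hm : ∀ i < d, 0 < m i) :
    ∃ c₀ : ℝ, AInv d m r c₀ (Ng d m r) := by
  obtain ⟨Rb, hR0, hR⟩ := exists_Rb d r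
  refine ⟨Rb + Rb + 1, fun k x hx => ?_⟩
  have hf := far_terms h hR hR0 hx
  have hs := sign_iter h hm hR (x := x) (k := k) (fun j hj => hf j hj.le)
  constructor
  · rintro ⟨k', h2⟩
    rcases le_or_gt k k' with h3 | h3
    · refine ⟨k' - k, ?_⟩
      rw [← Function.iterate_add_apply, Nat.sub_add_cancel h3]
      exact h2
    · refine ⟨0, ?_⟩
      simp only [Function.iterate_zero, id]
      rcases lt_trichotomy x 0 with h4 | h4 | h4
      · exact (hs.2 h4 k le_rfl).le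
      · exfalso
        have h5 := hf 0 (Nat.zero_le _)
        rw [h4] at h5
        simp only [Function.iterate_zero, id, Int.cast_zero, abs_zero] at h5
        linarith
      · have := hs.1 h4 k' h3.le
        omega
  · rintro ⟨k', h2⟩
    refine ⟨k' + k, ?_⟩
    rw [Function.iterate_add_apply]
    exact h2

end Pool.Agent.N681.AI
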