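import Pool.Agent.N681.AI.B1

/-!
Natural densities among the positive integers: additivity and the law of the minima of the orbits,
abstractly.
-/

set_option autoImplicit false

namespace Pool.Agent.N681.AI
open Pool.Agent.H319R3.GC Pool.Agent.H319R3.DN Finset Filter Topology

variable {d : ℕ} {m r : ℕ → ℤ}

/-- number of elements of `S` in `[1, N]` -/
noncomputable def cp (S : Set ℤ) (N : ℕ) : ℝ := (Set.ncard {n : ℤ | n ∈ S ∧ 1 ≤ n ∧ n ≤ (N : ℤ)} : ℝ)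

/-- natural density among the positive integers -/
def HasD (S : Set ℤ) (δ : ℝ) : Prop := Tendsto (fun N : ℕ => cp S N / N) atTop (𝓝 δ)

theorem cp_fin (S : Set ℤ) (N : ℕ) : {n : ℤ | n ∈ S ∧ 1 ≤ n ∧ n ≤ (N : ℤ)}.Finite :=
  (Set.finite_Icc (1 : ℤ) N).subset fun _ hn => ⟨hn.2.1, hn.2.2⟩

theorem cp_nonneg (S : Set ℤ) (N : ℕ) : 0 ≤ cp S N := Nat.cast_nonneg _

theorem cp_mono {S S' : Set ℤ} (N : ℕ) (h : ∀ n : ℤ, 1 ≤ n → n ∈ S → n ∈ S') : cp S N ≤ cp S' N := by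
  unfold cp
  have := Set.ncard_le_ncard (s := {n : ℤ | n ∈ S ∧ 1 ≤ n ∧ n ≤ (N : ℤ)})
    (t := {n : ℤ | n ∈ S' ∧ 1 ≤ n ∧ n ≤ (N : ℤ)}) (fun n hn => ⟨h n hn.2.1 hn.1, hn.2⟩) (cp_fin S' N)
  exact_mod_cast this

theorem cp_congr {S S' : Set ℤ} (N : ℕ) (h : ∀ n : ℤ, 1 ≤ n → (n ∈ S ↔ n ∈ S')) :
    cp S N = cp S' N :=
  le_antisymm (cp_mono N fun n h1 h2 => (h n h1).1 h2) (cp_mono N fun n h1 h2 => (h n h1).2 h2)

theorem cp_univ (N : ℕ) : cp Set.univ N = N := by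
  unfold cp
  have : {n : ℤ | n ∈ Set.univ ∧ 1 ≤ n ∧ n ≤ (N : ℤ)} = ((Finset.Icc (1 : ℤ) N : Finset ℤ) : Set ℤ) := by
    ext n
    simp
  rw [this, Set.ncard_coe_finset, Int.card_Icc]
  simp

theorem cp_union {S S' : Set ℤ} (N : ℕ) (h : ∀ n : ℤ, 1 ≤ n → n ∈ S → n ∉ S') :
    cp (S ∪ S') N = cp S N + cp S' N := by
  unfold cp
  have e : {n : ℤ | n ∈ S ∪ S' ∧ 1 ≤ n ∧ n ≤ (N : ℤ)} =
      {n : ℤ | n ∈ S ∧ 1 ≤ n ∧ n ≤ (N : ℤ)} ∪ {n : ℤ | n ∈ S' ∧ 1 ≤ n ∧ n ≤ (N : ℤ)} := by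
    ext n
    simp only [Set.mem_union, Set.mem_ofPred_eq]
    tauto
  rw [e, Set.ncard_union_eq ?_ (cp_fin S N) (cp_fin S' N)]
  · push_cast
    rfl
  · rw [Set.disjoint_left]
    rintro n ⟨h1, h2, _⟩ ⟨h3, _⟩
    exact h n h2 h1 h3

theorem cp_biUnion {ι : Type*} (A : ι → Set ℤ) (N : ℕ) (F : Finset ι)
    (h : ∀ i ∈ F, ∀ j ∈ F, i ≠ j → ∀ n : ℤ, 1 ≤ n → n ∈ A i → n ∉ A j) :
    cp (⋃ i ∈ F, A i) N = ∑ i ∈ F, cp (A i) N := by
  classical
  induction F using Finset.induction_on with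
  | empty =>
    simp only [Finset.notMem_empty, Set.iUnion_of_empty, Set.iUnion_empty, Finset.sum_empty]
    unfold cp
    simp
  | insert a F ha ih =>
    rw [Finset.sum_insert ha, ← ih (fun i hi j hj => h i (by simp [hi]) j (by simp [hj]))]
    rw [← cp_union]
    · congr 1
      ext n
      simp
    · intro n hn h1 h2
      simp only [Set.mem_iUnion] at h2
      obtain ⟨i, hi, h3⟩ := h2
      exact h a (by simp) i (by simp [hi]) (by rintro rfl; exact ha hi) n hn h1 h3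

theorem HasD.nonneg {S : Set ℤ} {δ : ℝ} (h : HasD S δ) : 0 ≤ δ :=
  ge_of_tendsto' h fun N => div_nonneg (cp_nonneg S N) (Nat.cast_nonneg _)

theorem HasD.le_one {S : Set ℤ} {δ : ℝ} (h : HasD S δ) : δ ≤ 1 := by
  refine le_of_tendsto' h fun N => ?_
  refine div_le_one_of_le₀ ?_ (Nat.cast_nonneg _)
  rw [← cp_univ N]
  exact cp_mono N fun _ _ _ => Set.mem_univ _

theorem HasD.congr {S S' : Set ℤ} {δ : ℝ} (h : HasD S δ) (he : ∀ n : ℤ, 1 ≤ n → (n ∈ S ↔ n ∈ S')) :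
    HasD S' δ := by
  refine Filter.Tendsto.congr (fun N => ?_) h
  rw [cp_congr N he]

/-- the densities of an almost invariant set -/
theorem hasD_of_ainv {c₀ : ℝ} (h : Adm d m r) {i j : ℕ} (hi : i < d) (hj : j < d)
    (hij : (m i).natAbs ≠ (m j).natAbs) {S : Set ℤ} (hS : AInv d m r c₀ S) :
    ∃ δ : ℝ, HasD S δ ∧ Tendsto (fun X : ℝ => G S 1 X / X) atTop (𝓝 δ) := by
  obtain ⟨l, hl, -⟩ := density h hi hj hij hS
  have h1 := hl 1 (Or.inl rfl)
  have hGN : ∀ N : ℕ, G S 1 ((N : ℝ) + 1) = cp S N := by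
    intro N
    unfold G cp
    congr 2
    ext x
    simp only [Set.mem_ofPred_eq]
    constructor
    · rintro ⟨g1, g2, g3⟩
      have h4 : (1 * x : ℤ) < (N : ℤ) + 1 := by exact_mod_cast g3
      exact ⟨g1, by omega, by omega⟩
    · rintro ⟨g1, g2, g3⟩
      refine ⟨g1, by omega, ?_⟩
      have h4 : (1 * x : ℤ) < (N : ℤ) + 1 := by omega
      exact_mod_cast h4
  refine ⟨l 1, ?_, h1⟩
  unfold HasD
  have g1 : Tendsto (fun N : ℕ => ((N : ℝ) + 1)) atTop atTop :=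
    tendsto_atTop_add_const_right _ _ tendsto_natCast_atTop_atTop
  have g2 := h1.comp g1
  have g3 : Tendsto (fun N : ℕ => ((N : ℝ) + 1) / N) atTop (𝓝 1) := by
    have g4 : Tendsto (fun N : ℕ => 1 + 1 / (N : ℝ)) atTop (𝓝 (1 + 0)) :=
      tendsto_const_nhds.add tendsto_one_div_atTop_nhds_zero_nat
    rw [add_zero] at g4
    refine g4.congr' ?_
    filter_upwards [eventually_gt_atTop 0] with N hN
    have : (0 : ℝ) < N := by exact_mod_cast hN
    field_simp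
  have g5 := g2.mul g3
  rw [mul_one] at g5
  refine g5.congr' ?_
  filter_upwards [eventually_gt_atTop 0] with N hN
  have : (0 : ℝ) < N := by exact_mod_cast hN
  simp only [Function.comp]
  rw [hGN N]
  field_simp

/-- a positive density gives positive density in the sense of `G` -/
theorem pos_of_not {S : Set ℤ} {δ : ℝ} (h : HasD S δ)
    (hG : Tendsto (fun X : ℝ => G S 1 X / X) atTop (𝓝 δ))
    (hn : ¬ Tendsto (fun X : ℝ => G S 1 X / X) atTop (𝓝 0)) : 0 < δ := by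
  refine lt_of_le_of_ne h.nonneg ?_
  intro h0
  apply hn
  rw [h0]
  exact hG

/-- **The law, abstractly.** `N₀` a set of density `η`, `L e` (`e ∈ E`) disjoint sets of densities `D e`
disjoint from `N₀`; the positive integers outside of `N₀` and of the `L e` with `e ≤ y` have upper
density at most `C / y^c`. -/
theorem law_sum {E : Set ℤ} (hE : ∀ e ∈ E, 0 < e) {N₀ : Set ℤ} {L : ℤ → Set ℤ} {η : ℝ} {D : ℤ → ℝ}
    {C c : ℝ} (hc : 0 < c)
    (h0 : HasD N₀ η) (hL : ∀ e ∈ E, HasD (L e) (D e))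
    (hd0 : ∀ e ∈ E, ∀ n : ℤ, n ∈ L e → n ∉ N₀)
    (hdd : ∀ e ∈ E, ∀ e' ∈ E, e ≠ e' → ∀ n : ℤ, n ∈ L e → n ∉ L e')
    (hcap : ∀ (N : ℕ) (y : ℝ), 1 ≤ N → 1 ≤ y →
      cp {n : ℤ | n ∉ N₀ ∧ ∀ e ∈ E, (e : ℝ) ≤ y → n ∉ L e} N ≤ C * N / y ^ c) :
    HasSum (fun e : E => D e) (1 - η) ∧
      ∀ y : ℝ, 1 ≤ y → ∀ S : Finset ℤ, (∀ e ∈ S, e ∈ E ∧ y < (e : ℝ)) → ∑ e ∈ S, D e ≤ C / y ^ c := by
  classical
  have hD0 : ∀ e ∈ E, 0 ≤ D e := fun e he => (hL e he).nonneg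
  -- densities of finite unions
  have hfin : ∀ F : Finset ℤ, (∀ e ∈ F, e ∈ E) → HasD (N₀ ∪ ⋃ e ∈ F, L e) (η + ∑ e ∈ F, D e) := by
    intro F hF
    unfold HasD
    have h1 : ∀ N : ℕ, cp (N₀ ∪ ⋃ e ∈ F, L e) N / N = cp N₀ N / N + ∑ e ∈ F, cp (L e) N / N := by
      intro N
      rw [cp_union, cp_biUnion, add_div, Finset.sum_div]
      · intro e he e' he' hne n _ h2
        exact hdd e (hF e he) e' (hF e' he') hne n h2
      · intro n _ h2 h3
        simp only [Set.mem_iUnion] at h3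
        obtain ⟨e, he, h4⟩ := h3
        exact hd0 e (hF e he) n h4 h2
    simp only [h1]
    exact h0.add (tendsto_finsetSum F fun e he => hL e (hF e he))
  have hup : ∀ F : Finset ℤ, (∀ e ∈ F, e ∈ E) → η + ∑ e ∈ F, D e ≤ 1 := fun F hF =>
    (hfin F hF).le_one
  -- the elements up to `y`
  have hEy : ∀ y : ℝ, ∃ F : Finset ℤ, ∀ e : ℤ, e ∈ F ↔ e ∈ E ∧ (e : ℝ) ≤ y := by
    intro y
    have hf : {e : ℤ | e ∈ E ∧ (e : ℝ) ≤ y}.Finite := by
      apply (Set.finite_Icc (0 : ℤ) ⌈y⌉).subset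
      rintro e ⟨h1, h2⟩
      refine ⟨(hE e h1).le, ?_⟩
      have h3 : (e : ℝ) ≤ (⌈y⌉ : ℤ) := h2.trans (Int.le_ceil y)
      exact_mod_cast h3
    exact ⟨hf.toFinset, fun e => by simp⟩
  have hlow : ∀ (y : ℝ) (F : Finset ℤ), 1 ≤ y → (∀ e : ℤ, e ∈ F ↔ e ∈ E ∧ (e : ℝ) ≤ y) →
      1 - C / y ^ c ≤ η + ∑ e ∈ F, D e := by
    intro y F hy hF
    have h1 := hfin F fun e he => ((hF e).1 he).1
    refine ge_of_tendsto h1 ?_
    filter_upwards [eventually_ge_atTop 1] with N hN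
    have hN0 : (0 : ℝ) < N := by exact_mod_cast (by omega : 0 < N)
    have h2 := hcap N y hN hy
    have h3 : (N : ℝ) = cp (N₀ ∪ ⋃ e ∈ F, L e) N +
        cp {n : ℤ | n ∉ N₀ ∧ ∀ e ∈ E, (e : ℝ) ≤ y → n ∉ L e} N := by
      rw [← cp_univ N, ← cp_union]
      · refine cp_congr N fun n _ => ?_
        simp only [Set.mem_univ, Set.mem_union, Set.mem_iUnion, Set.mem_ofPred_eq, true_iff]
        by_cases h4 : n ∈ N₀
        · exact Or.inl (Or.inl h4)
        · by_cases h5 : ∃ e, ∃ _ : e ∈ F, n ∈ L e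
          · exact Or.inl (Or.inr h5)
          · refine Or.inr ⟨h4, fun e he hey h6 => h5 ⟨e, (hF e).2 ⟨he, hey⟩, h6⟩⟩
      · intro n _ h4 h5
        simp only [Set.mem_union, Set.mem_iUnion] at h4
        rcases h4 with h4 | ⟨e, he, h6⟩
        · exact h5.1 h4
        · obtain ⟨g1, g2⟩ := (hF e).1 he
          exact h5.2 e g1 g2 h6
    rw [le_div_iff₀ hN0]
    have h4 : (1 - C / y ^ c) * N = N - C * N / y ^ c := by ring
    rw [h4]
    linarith
  -- the sum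
  have hsub : ∀ F : Finset E, ∑ e ∈ F, D e = ∑ e ∈ F.map (Function.Embedding.subtype _), D e := by
    intro F
    rw [Finset.sum_map]
    rfl
  have hmem : ∀ F : Finset E, ∀ e ∈ F.map (Function.Embedding.subtype _), e ∈ E := by
    intro F e he
    obtain ⟨e', -, rfl⟩ := Finset.mem_map.1 he
    exact e'.2
  have hbd : ∀ F : Finset E, ∑ e ∈ F, D e ≤ 1 - η := by
    intro F
    rw [hsub F]
    have := hup _ (hmem F)
    linarith
  have hsumm : Summable (fun e : E => D e) :=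
    summable_of_sum_le (fun e => hD0 e e.2) hbd
  have hle : ∑' e : E, D e ≤ 1 - η := hsumm.tsum_le_of_sum_le hbd
  have hge : 1 - η ≤ ∑' e : E, D e := by
    have hlim : Tendsto (fun y : ℝ => 1 - C / y ^ c - η) atTop (𝓝 (1 - 0 - η)) := by
      refine (tendsto_const_nhds.sub ?_).sub tendsto_const_nhds
      exact (tendsto_rpow_atTop hc).const_div_atTop C
    rw [sub_zero] at hlim
    refine le_of_tendsto hlim ?_
    filter_upwards [eventually_ge_atTop (1 : ℝ)] with y hy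
    obtain ⟨F, hF⟩ := hEy y
    have h1 := hlow y F hy hF
    have h2 : ∑ e ∈ F, D e ≤ ∑' e : E, D e := by
      have h3 : ∑ e ∈ F, D e = ∑ e ∈ F.attach.image (fun e => (⟨e.1, ((hF e.1).1 e.2).1⟩ : E)), D e := by
        rw [Finset.sum_image, ← Finset.sum_attach F]
        intro a _ b _ hab
        apply Subtype.ext
        have := congrArg Subtype.val hab
        exact this
      rw [h3]
      exact hsumm.sum_le_tsum _ fun e _ => hD0 e e.2
    linarith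
  refine ⟨?_, ?_⟩
  · have := hsumm.hasSum
    rwa [le_antisymm hle hge] at this
  · intro y hy S hS
    obtain ⟨F, hF⟩ := hEy y
    have h1 := hlow y F hy hF
    have hdisj : Disjoint F S := by
      rw [Finset.disjoint_left]
      intro e he he'
      have h2 := ((hF e).1 he).2
      have h3 := (hS e he').2
      linarith
    have h2 := hup (F ∪ S) fun e he => by
      rcases Finset.mem_union.1 he with h3 | h3
      · exact ((hF e).1 h3).1
      · exact (hS e h3).1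
    rw [Finset.sum_union hdisj] at h2
    linarith

end Pool.Agent.N681.AI
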