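import Pool.Agent.N681.AI.B2
import Pool.Agent.H319R3.PO.P11
import Pool.Agent.H319R3.PO.P10
import Pool.Agent.H319R3.PO.P12

/-!
Lower bound of the harmonic sum of a set which contains the preimages of a point along nice words.
-/

set_option autoImplicit false

namespace Pool.Agent.N681.AI
open Pool.Agent.H319R3.GC Pool.Agent.H319R3.DN Pool.Agent.H319R3.PO Finset Filter Topology

variable {d : ℕ} {m r : ℕ → ℤ}

theorem harm_lower' (h : Adm d m r) (hmp : ∀ i < d, 0 < m i) {η c C0 : ℝ} {N0 N : ℕ}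
    (hn : NB d m r η c C0 N0) {z : ℤ} (hz0 : 0 < z)
    (hz : C0 < |(z : ℝ)|) (hU : ∀ k : ℕ, N ≤ k → 1 / 2 ≤ U d m r η N0 k z)
    (hper : ∀ j : ℕ, 1 ≤ j → (Tm d m r)^[j] z ≠ z) {S : Set ℤ}
    (hS : ∀ k : ℕ, ∀ w ∈ LW d k, Nice d η N0 w → Vl d m r z w → pre d m r z w ∈ S) :
    ∃ (c' : ℝ) (X₀ : ℕ), 0 < c' ∧ ∀ X : ℕ, X₀ ≤ X → c' * Real.log X ≤ HS S 1 X := by
  classical
  obtain ⟨R, hRdef⟩ : ∃ R : ℝ, R = |(z : ℝ)| + C0 := ⟨_, rfl⟩
  have hC : 1 ≤ C0 := hn.one_le
  have hR : 1 < R := by rw [hRdef]; linarith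
  have hR0 : 0 < R := by linarith
  have hd2 : (2 : ℝ) ≤ d := by exact_mod_cast h.two_le
  have hld : 0 < Real.log d := Real.log_pos (by linarith)
  -- the sets of preimages
  let Wk : ℕ → Finset (List ℕ) := fun k =>
    (LW d k).filter (fun w => Nice d η N0 w ∧ Vl d m r z w)
  let Zk : ℕ → Finset ℤ := fun k => (Wk k).image (pre d m r z)
  have hWk : ∀ k w, w ∈ Wk k → w ∈ LW d k ∧ Nice d η N0 w ∧ Vl d m r z w := by
    intro k w hw
    exact mem_filter.1 hw
  have hZk : ∀ k x, x ∈ Zk k → ∃ w, w ∈ LW d k ∧ Nice d η N0 w ∧ Vl d m r z w ∧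
      pre d m r z w = x := by
    intro k x hx
    obtain ⟨w, hw, hwx⟩ := mem_image.1 hx
    obtain ⟨a, b, c⟩ := hWk k w hw
    exact ⟨w, a, b, c, hwx⟩
  have hZiter : ∀ k x, x ∈ Zk k → (Tm d m r)^[k] x = z := by
    intro k x hx
    obtain ⟨w, hw, -, hv, rfl⟩ := hZk k x hx
    exact (pre_iter h hw hv).1
  have hdisj : ∀ k l, k ≠ l → Disjoint (Zk k) (Zk l) := by
    have key : ∀ k l, k < l → Disjoint (Zk k) (Zk l) := by
      intro k l hkl
      rw [Finset.disjoint_left]
      intro x hx hx'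
      have e1 := hZiter k x hx
      have e2 := hZiter l x hx'
      have : (Tm d m r)^[l - k] z = z := by
        rw [← e1, ← Function.iterate_add_apply, Nat.sub_add_cancel hkl.le, e2, e1]
      exact hper (l - k) (by omega) this
    intro k l hkl
    rcases lt_or_gt_of_ne hkl with h' | h'
    · exact key k l h'
    · exact (key l k h').symm
  have hsum : ∀ k, N ≤ k → 1 / (2 * R) ≤ ∑ x ∈ Zk k, 1 / |(x : ℝ)| := by
    intro k hk
    have hinj : Set.InjOn (pre d m r z) ((Wk k : Finset (List ℕ)) : Set (List ℕ)) := by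
      intro w hw w' hw' he
      obtain ⟨a, -, b⟩ := hWk k w hw
      obtain ⟨a', -, b'⟩ := hWk k w' hw'
      exact pre_inj h a a' b b' he
    rw [Finset.sum_image hinj]
    have h1 : U d m r η N0 k z / R ≤ ∑ w ∈ Wk k, 1 / |(pre d m r z w : ℝ)| := by
      unfold U
      rw [Finset.sum_div]
      have hfe : (LW d k).filter (fun w => Nice d η N0 w ∧ Vl d m r z w) = Wk k := rfl
      have : ∑ w ∈ Wk k, wt d m w / R ≤ ∑ w ∈ Wk k, 1 / |(pre d m r z w : ℝ)| := by
        refine Finset.sum_le_sum fun w hw => ?_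
        obtain ⟨a, b, c⟩ := hWk k w hw
        rw [hRdef]
        exact (pre_bounds_p11 h hn hz a b c).2.2.1
      refine le_trans (le_of_eq ?_) this
      refine Finset.sum_congr ?_ fun _ _ => rfl
      rw [← hfe]
    refine le_trans ?_ h1
    rw [div_le_div_iff₀ (by positivity) hR0]
    have := hU k hk
    nlinarith
  have hunion : ∀ K : ℕ, ((Finset.Ico N K).card : ℝ) * (1 / (2 * R)) ≤
      ∑ x ∈ (Finset.Ico N K).biUnion Zk, 1 / |(x : ℝ)| := by
    intro K
    rw [Finset.sum_biUnion (fun k _ l _ hkl => hdisj k l hkl)]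
    rw [← nsmul_eq_mul]
    refine Finset.card_nsmul_le_sum _ _ _ fun k hk => hsum k (Finset.mem_Ico.1 hk).1
  have hbound : ∀ (X : ℕ), (1 : ℝ) ≤ X → Real.log R ≤ Real.log X → ∀ k, k <
      ⌊(Real.log X - Real.log R) / Real.log d⌋₊ + 1 → R * (d : ℝ) ^ k ≤ X := by
    intro X hX1 hX k hk
    have hk' : k ≤ ⌊(Real.log X - Real.log R) / Real.log d⌋₊ := by omega
    have h1 : (k : ℝ) ≤ (Real.log X - Real.log R) / Real.log d := by
      refine le_trans (Nat.cast_le.2 hk') (Nat.floor_le ?_)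
      exact div_nonneg (by linarith) hld.le
    rw [le_div_iff₀ hld] at h1
    have hXp : (0 : ℝ) < X := by linarith
    rw [← Real.log_le_log_iff (by positivity) hXp, Real.log_mul (by positivity) (by positivity),
      Real.log_pow]
    linarith
  have hZprop : ∀ (X : ℕ), (1 : ℝ) ≤ X → Real.log R ≤ Real.log X →
      ∀ x ∈ (Finset.Ico N (⌊(Real.log X - Real.log R) / Real.log d⌋₊ + 1)).biUnion Zk,
      x ∈ S ∧ 0 < 1 * x ∧ |(x : ℝ)| ≤ X := by
    intro X hX1 hX x hx
    obtain ⟨k, hk, hxk⟩ := Finset.mem_biUnion.1 hx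
    rw [Finset.mem_Ico] at hk
    obtain ⟨w, hw, hni, hv, rfl⟩ := hZk k x hxk
    obtain ⟨p1, p2, -, p4⟩ := pre_bounds_p11 h hn hz hw hni hv
    refine ⟨hS k w hw hni hv, p4 hmp 1 (Or.inl rfl) (by omega), ?_⟩
    rw [← hRdef] at p2
    exact p2.trans (hbound X hX1 hX k hk.2)
  have hcount : ∀ (X : ℕ), 2 * (Real.log R + N * Real.log d) ≤ Real.log X →
      1 / (4 * R * Real.log d) * Real.log X ≤
        ((Finset.Ico N (⌊(Real.log X - Real.log R) / Real.log d⌋₊ + 1)).card : ℝ) *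
          (1 / (2 * R)) := by
    intro X hX
    have h1 : (Real.log X - Real.log R) / Real.log d - N ≤
        ((Finset.Ico N (⌊(Real.log X - Real.log R) / Real.log d⌋₊ + 1)).card : ℝ) := by
      rw [Nat.card_Ico]
      have a1 := (Nat.lt_floor_add_one ((Real.log X - Real.log R) / Real.log d)).le
      have a2 : ((⌊(Real.log X - Real.log R) / Real.log d⌋₊ + 1 : ℕ) : ℝ) ≤
          ((⌊(Real.log X - Real.log R) / Real.log d⌋₊ + 1 - N : ℕ) : ℝ) + N := by
        have : ⌊(Real.log X - Real.log R) / Real.log d⌋₊ + 1 ≤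
          ⌊(Real.log X - Real.log R) / Real.log d⌋₊ + 1 - N + N := by omega
        exact_mod_cast this
      push_cast at a2
      linarith
    have h2 : Real.log X / (2 * Real.log d) ≤ (Real.log X - Real.log R) / Real.log d - N := by
      rw [div_sub' hld.ne', div_le_div_iff₀ (by positivity) hld]
      nlinarith
    calc 1 / (4 * R * Real.log d) * Real.log X = Real.log X / (2 * Real.log d) * (1 / (2 * R)) := by
          field_simp; ring
      _ ≤ _ := mul_le_mul_of_nonneg_right (h2.trans h1) (by positivity)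
  have hlogR : 0 < Real.log R := Real.log_pos hR
  have hX0 : ∀ X : ℕ, ⌈Real.exp (2 * (Real.log R + N * Real.log d))⌉₊ ≤ X →
      (1 : ℝ) ≤ X ∧ Real.log R ≤ Real.log X ∧ 2 * (Real.log R + N * Real.log d) ≤ Real.log X := by
    intro X hX
    have h0 : 0 ≤ (N : ℝ) * Real.log d := by positivity
    have h1 : Real.exp (2 * (Real.log R + N * Real.log d)) ≤ X :=
      (Nat.le_ceil _).trans (by exact_mod_cast hX)
    have h2 : 1 ≤ Real.exp (2 * (Real.log R + N * Real.log d)) := Real.one_le_exp (by positivity)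
    have h3 : 2 * (Real.log R + N * Real.log d) ≤ Real.log X := by
      rw [← Real.log_exp (2 * (Real.log R + N * Real.log d))]
      exact Real.log_le_log (Real.exp_pos _) h1
    exact ⟨h2.trans h1, by linarith, h3⟩
  refine ⟨1 / (4 * R * Real.log d), ⌈Real.exp (2 * (Real.log R + N * Real.log d))⌉₊, by positivity,
    fun X hX => ?_⟩
  obtain ⟨a1, a2, a3⟩ := hX0 X hX
  refine (hcount X a3).trans ((hunion _).trans ?_)
  exact side_p11 (Or.inl rfl) X _ (fun x hx => (hZprop X a1 a2 x hx).1)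
    (fun x hx => (hZprop X a1 a2 x hx).2.1) (fun x hx => (hZprop X a1 a2 x hx).2.2)

/-- a lower bound for the preimages along nice words -/
theorem pre_lower (h : Adm d m r) (hmp : ∀ i < d, 0 < m i) {η c C0 : ℝ} {N0 : ℕ}
    (hn : NB d m r η c C0 N0) {z : ℤ} {B : ℝ} (hB : 0 ≤ B)
    (hz : C0 + B * (PP d m : ℝ) ^ N0 ≤ z) {w : List ℕ} (hw : ∀ i ∈ w, i < d)
    (hni : Nice d η N0 w) (hv : Vl d m r z w) : B ≤ (pre d m r z w : ℝ) := by
  have hC : 1 ≤ C0 := hn.one_le
  have hd2 : (2 : ℝ) ≤ d := by exact_mod_cast h.two_le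
  have hP1 : (1 : ℝ) ≤ PP d m := by
    have := h.big
    exact_mod_cast (by omega : 1 ≤ PP d m)
  have hdk : 0 < (d : ℝ) ^ w.length := by positivity
  have e := pre_mul hv
  have eR : (Mw m w : ℝ) * (pre d m r z w : ℝ) = (d : ℝ) ^ w.length * z + Ww d m r w := by
    exact_mod_cast e
  have hoff := (abs_le.1 (hn.off w hw hni)).1
  have hMp : 0 < (Mw m w : ℝ) := by exact_mod_cast Mw_pos_p11 hmp hw
  have h1 : (d : ℝ) ^ w.length * (B * (PP d m : ℝ) ^ N0) ≤ (Mw m w : ℝ) * (pre d m r z w : ℝ) := by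
    rw [eR]
    nlinarith
  -- the multiplier is at most `d^k P^N0`
  have hMle : (Mw m w : ℝ) ≤ (d : ℝ) ^ w.length * (PP d m : ℝ) ^ N0 := by
    by_cases hlen : N0 ≤ w.length
    · have h2 := hn.mul w hw hni hlen
      rw [abs_of_pos hMp] at h2
      refine h2.trans (mul_le_mul_of_nonneg_left ?_ hdk.le)
      refine le_trans ?_ (one_le_pow₀ hP1)
      rw [← Real.exp_zero]
      exact Real.exp_le_exp.2 (by have := hn.c_pos; have : 0 ≤ c * w.length := by positivity
                                  linarith)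
    · push Not at hlen
      have h2 : (Mw m w).natAbs ∣ PP d m ^ w.length := natAbs_Mw_dvd (mem_LW.2 ⟨rfl, hw⟩)
      have h3 := Nat.le_of_dvd (pow_pos (by have := h.big; omega) _) h2
      have h4 : (Mw m w : ℝ) ≤ (PP d m : ℝ) ^ w.length := by
        have h5 : (((Mw m w).natAbs : ℕ) : ℝ) ≤ ((PP d m ^ w.length : ℕ) : ℝ) := by exact_mod_cast h3
        rw [Nat.cast_natAbs] at h5
        push_cast at h5
        exact (le_abs_self _).trans h5
      refine h4.trans ?_
      have h5 : (PP d m : ℝ) ^ w.length ≤ (PP d m : ℝ) ^ N0 := pow_le_pow_right₀ hP1 hlen.le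
      have h6 : (1 : ℝ) ≤ (d : ℝ) ^ w.length := one_le_pow₀ (by linarith)
      have h7 : (0 : ℝ) ≤ (PP d m : ℝ) ^ N0 := by positivity
      nlinarith
  have h2 : (Mw m w : ℝ) * B ≤ (Mw m w : ℝ) * (pre d m r z w : ℝ) := by
    refine le_trans ?_ h1
    calc (Mw m w : ℝ) * B ≤ ((d : ℝ) ^ w.length * (PP d m : ℝ) ^ N0) * B :=
          mul_le_mul_of_nonneg_right hMle hB
      _ = _ := by ring
  exact le_of_mul_le_mul_left h2 hMp

end Pool.Agent.N681.AI
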