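import Pool.Agent.H319R3.PO.P15a
import Pool.Agent.H319R3.PO.P14
import Pool.Agent.N681.AI.B3

/-!
Preimages in given residue classes whose path down to `z` stays `≥ z`.
-/

set_option autoImplicit false

namespace Pool.Agent.N681.AI
open Pool.Agent.H319R3.GC Pool.Agent.H319R3.DN Pool.Agent.H319R3.PO Finset Filter Topology
open Pool.Agent.H319R3.PO.P15aux

variable {d : ℕ} {m r : ℕ → ℤ}

theorem hit2 (h : Adm d m r) {μ : ℕ} (hM : Mol d μ m r) : ∃ D : ℕ, 0 < D ∧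
    ∀ (x : ℤ) (k s : ℕ) (z : ℤ), z = (Tm d m r)^[k] x → 0 < z →
      (((wd d m r k x).filter (fun i => i ≠ 0)).length = s + 1) →
      (∀ p : ℕ, p.Prime → p ∣ μ → padicValInt p (D * z) ≤ s * padicValNat p μ) →
      ∀ (N : ℕ) (y₀ : ℤ) (Y : ℝ), ∃ (z' : ℤ) (L : ℕ), (μ : ℤ) ^ N ∣ z' - y₀ ∧ Y < (z' : ℝ) ∧
        (Tm d m r)^[L] z' = z ∧ (∀ i ≤ L, z ≤ (Tm d m r)^[i] z') ∧
        ∀ j : ℕ, 1 ≤ j → (Tm d m r)^[j] z' ≠ z' := by
  have hd := h.two_le
  have hμ := mu_ge h hM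
  have hcop := mu_cop h hM
  have hcopN : Nat.Coprime μ d := Nat.isCoprime_iff_coprime.1 hcop
  obtain ⟨f, D, hf, hD, hμD, hpw⟩ := powers hd hμ hcopN
  refine ⟨D, hD, ?_⟩
  intro x k s z hz hzpos hk hval N y₀ Y
  have hz0 : z ≠ 0 := hzpos.ne'
  obtain ⟨n, e, hkn, hsn, hl, hde⟩ := decomp h hM x s k hk
  rw [← hz] at hde
  have hμ0 : (μ : ℤ) ≠ 0 := by exact_mod_cast (by omega : μ ≠ 0)
  have hdz : (d : ℤ) ≠ 0 := d_ne h
  have hDz : (D : ℤ) * z ≠ 0 := mul_ne_zero (by exact_mod_cast hD.ne') hz0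
  -- the point `b`
  obtain ⟨b, hb⟩ : ∃ b, b = (Tm d m r)^[n] x := ⟨_, rfl⟩
  have hTb : Tm d m r b = (d : ℤ) ^ e * z := by
    rw [hb, hde, Function.iterate_succ_apply']
  obtain ⟨j, hj⟩ : ∃ j, j = (b % d).toNat := ⟨_, rfl⟩
  have hj0 : j ≠ 0 := by rw [hj, hb]; exact hl
  have hjd : j < d := by
    rw [hj]
    have h1 : b % (d : ℤ) < d := Int.emod_lt_of_pos _ (by exact_mod_cast (by omega : 0 < d))
    have h0 : 0 ≤ b % (d : ℤ) := Int.emod_nonneg _ hdz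
    omega
  have hmj : m j = μ := hM.mi j (by omega) hjd
  have hμb : (μ : ℤ) * b = (d : ℤ) ^ (e + 1) * z + r j := by
    have h1 := P15aux.T_eq h b
    rw [hTb, ← hj, hmj] at h1
    rw [pow_succ]
    linear_combination -h1
  have hMw : Mw m (wd d m r n x) = (μ : ℤ) ^ s := by
    rw [Mw_Mol hM (mem_LW.1 (wd_mem hd n x)).2, hsn]
  -- the class
  obtain ⟨R, hR0, hR⟩ := orbit_bdd (d := d) (m := m) (r := r) z
  have hcn : IsCoprime ((μ : ℤ) ^ N) ((d : ℤ) ^ n) := hcop.pow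
  obtain ⟨u1, v1, huv1⟩ := hcn
  obtain ⟨c, hc⟩ : ∃ c, c = v1 * (y₀ - x) := ⟨_, rfl⟩
  have hcB : IsCoprime ((μ : ℤ) ^ (N + s + 1)) ((d : ℤ) ^ (e + 1)) := hcop.pow
  obtain ⟨u2, v2, huv2⟩ := hcB
  obtain ⟨a, a', ha⟩ := bez (by omega : μ ≠ 0) hDz hval (N + s + 1)
  obtain ⟨τ, hτ⟩ : ∃ τ, τ = a * μ * c * v2 := ⟨_, rfl⟩
  obtain ⟨Bq, hBq⟩ : ∃ Bq : ℕ, Bq = z.natAbs + ∑ i ∈ range (n + 1), ((Tm d m r)^[i] x).natAbs + 1 :=
    ⟨_, rfl⟩
  obtain ⟨Y', hY'⟩ : ∃ Y' : ℕ, (⌈|Y|⌉₊ + d ^ n * Bq + x.natAbs : ℕ) = Y' := ⟨_, rfl⟩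
  obtain ⟨t, ht, u3, hu3⟩ := hpw (N + s + 1) τ
    (μ ^ (s + 1) * (x.natAbs + Y' + R.natAbs + 1) + 1)
  -- the quotient
  obtain ⟨E, hE⟩ : ∃ E, E = (d : ℤ) ^ (f * t) - 1 := ⟨_, rfl⟩
  obtain ⟨q', hq'⟩ : ∃ q' : ℤ, (d : ℤ) ^ (e + 1) * z * E
      = (μ : ℤ) ^ (s + 1) * (c + (μ : ℤ) ^ N * q') := by
    refine ⟨μ * c * a' - z * D * a * μ * c * u2 + (d : ℤ) ^ (e + 1) * z * u3, ?_⟩
    have e1 : E = D * τ + (μ : ℤ) ^ (N + s + 1) * u3 := by
      rw [hE]; linear_combination hu3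
    rw [e1, hτ]
    linear_combination (z * D * a * μ * c) * huv2 + (μ * c) * ha
  obtain ⟨q, hq⟩ : ∃ q, q = c + (μ : ℤ) ^ N * q' := ⟨_, rfl⟩
  rw [← hq] at hq'
  have hdq : (d : ℤ) ∣ q := by
    have h1 : (d : ℤ) ∣ (μ : ℤ) ^ (s + 1) * q :=
      ⟨(d : ℤ) ^ e * z * E, by rw [← hq']; ring⟩
    exact (hcop.symm.pow_right (n := s + 1)).dvd_of_dvd_mul_left h1
  obtain ⟨z', hz'⟩ : ∃ z', z' = x + (d : ℤ) ^ n * q := ⟨_, rfl⟩
  have hTn : (Tm d m r)^[n] z' = b + (μ : ℤ) ^ s * q := by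
    rw [hz', shift h, hMw, ← hb]
  have hTb' : Tm d m r (b + (μ : ℤ) ^ s * q) = (d : ℤ) ^ (e + f * t) * z := by
    have h1 : (b + (μ : ℤ) ^ s * q) % (d : ℤ) = b % d := by
      obtain ⟨q1, hq1⟩ := hdq
      rw [hq1, show b + (μ : ℤ) ^ s * (d * q1) = b + d * ((μ : ℤ) ^ s * q1) by ring]
      exact Int.add_mul_emod_self_left _ _ _
    have h2 := P15aux.T_eq h (b + (μ : ℤ) ^ s * q)
    rw [h1, ← hj, hmj] at h2
    apply mul_left_cancel₀ hdz
    rw [h2]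
    have e1 : (d : ℤ) ^ (f * t) = E + 1 := by rw [hE]; ring
    rw [pow_add, e1]
    linear_combination hμb - hq'
  have hTn1 : (Tm d m r)^[n + 1] z' = (d : ℤ) ^ (e + f * t) * z := by
    rw [Function.iterate_succ_apply', hTn, hTb']
  have hTL : (Tm d m r)^[n + 1 + (e + f * t)] z' = z := by
    rw [add_comm, Function.iterate_add_apply, hTn1]
    exact T_pow h hM _ _
  -- size
  have hEt : (t : ℤ) ≤ E := by
    rw [hE]
    have h1 : t + 1 ≤ d ^ (f * t) := by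
      calc t + 1 ≤ 2 ^ t := Nat.succ_le_of_lt (Nat.lt_two_pow_self)
        _ ≤ d ^ t := Nat.pow_le_pow_left hd t
        _ ≤ d ^ (f * t) := Nat.pow_le_pow_right (by omega) (Nat.le_mul_of_pos_left t hf)
    have h2 : ((t + 1 : ℕ) : ℤ) ≤ ((d ^ (f * t) : ℕ) : ℤ) := by exact_mod_cast h1
    push_cast at h2
    linarith
  obtain ⟨P, hP⟩ : ∃ P : ℤ, P = (μ : ℤ) ^ (s + 1) := ⟨_, rfl⟩
  have hP1 : 1 ≤ P := by
    rw [hP]
    exact_mod_cast Nat.one_le_pow _ _ (by omega)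
  obtain ⟨Q, hQ⟩ : ∃ Q : ℤ, Q = (d : ℤ) ^ n * (d : ℤ) ^ (e + 1) := ⟨_, rfl⟩
  have hQ1 : 1 ≤ Q := by
    rw [hQ]
    exact_mod_cast Nat.one_le_iff_ne_zero.2 (mul_ne_zero (pow_ne_zero _ (by omega))
      (pow_ne_zero _ (by omega)))
  have hPz : P * z' = P * x + Q * z * E := by
    rw [hz', hP, hQ]
    linear_combination -(d : ℤ) ^ n * hq'
  have hEb : P * (|x| + Y' + R + 1) + 1 ≤ E := by
    have h1 : ((μ ^ (s + 1) * (x.natAbs + Y' + R.natAbs + 1) + 1 : ℕ) : ℤ) ≤ (t : ℤ) := by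
      exact_mod_cast ht
    push_cast at h1
    rw [abs_of_nonneg hR0, ← hP] at h1
    linarith
  have hE0 : 0 ≤ E := by
    have : 0 ≤ P * (|x| + Y' + R + 1) := by positivity
    linarith
  have hbig : (Y' : ℤ) + R + 1 ≤ z' := by
    rcases size_lem hP1 hQ1 hz0 hE0 hPz hEb with ⟨_, h1⟩ | ⟨h1, _⟩
    · exact h1
    · omega
  -- the quotient is large
  have hY'2 : (d : ℤ) ^ n * Bq + |x| ≤ Y' := by
    rw [← hY']
    push_cast
    have : (0 : ℤ) ≤ (⌈|Y|⌉₊ : ℤ) := Int.natCast_nonneg _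
    linarith
  have hdn : (1 : ℤ) ≤ (d : ℤ) ^ n := by
    exact_mod_cast Nat.one_le_iff_ne_zero.2 (pow_ne_zero _ (by omega))
  have hqB : (Bq : ℤ) ≤ q := by
    have h1 : (d : ℤ) ^ n * Bq ≤ (d : ℤ) ^ n * q := by
      have h2 : (d : ℤ) ^ n * q = z' - x := by rw [hz']; ring
      rw [h2]
      have := le_abs_self x
      linarith
    exact le_of_mul_le_mul_left h1 (by omega)
  have hlow : ∀ i ≤ n, z ≤ (Tm d m r)^[i] z' := by
    intro i hi
    have h1 : z' = x + (d : ℤ) ^ i * ((d : ℤ) ^ (n - i) * q) := by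
      rw [hz', ← mul_assoc, ← pow_add, Nat.add_sub_cancel' hi]
    rw [h1, shift h]
    have h2 : (1 : ℤ) ≤ Mw m (wd d m r i x) := by
      rw [Mw_Mol hM (mem_LW.1 (wd_mem hd i x)).2]
      exact_mod_cast Nat.one_le_iff_ne_zero.2 (pow_ne_zero _ (by omega))
    have h3 : (1 : ℤ) ≤ (d : ℤ) ^ (n - i) := by
      exact_mod_cast Nat.one_le_iff_ne_zero.2 (pow_ne_zero _ (by omega))
    have hq0 : 0 ≤ q := le_trans (Int.natCast_nonneg _) hqB
    have h4 : q ≤ Mw m (wd d m r i x) * ((d : ℤ) ^ (n - i) * q) := by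
      have h5 : q ≤ (d : ℤ) ^ (n - i) * q := le_mul_of_one_le_left hq0 h3
      exact h5.trans (le_mul_of_one_le_left (hq0.trans h5) h2)
    have h5 : ((Tm d m r)^[i] x).natAbs ≤ ∑ i ∈ range (n + 1), ((Tm d m r)^[i] x).natAbs :=
      single_le_sum (f := fun i => ((Tm d m r)^[i] x).natAbs) (fun _ _ => Nat.zero_le _)
        (mem_range.2 (by omega))
    have h6 : z.natAbs + ((Tm d m r)^[i] x).natAbs + 1 ≤ Bq := by rw [hBq]; omega
    have h7 : (z.natAbs : ℤ) + ((Tm d m r)^[i] x).natAbs + 1 ≤ (Bq : ℤ) := by exact_mod_cast h6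
    rw [Int.natCast_natAbs, Int.natCast_natAbs] at h7
    have h8 := le_abs_self z
    have h9 := neg_abs_le ((Tm d m r)^[i] x)
    linarith
  refine ⟨z', n + 1 + (e + f * t), ⟨(x - y₀) * u1 + (d : ℤ) ^ n * q', ?_⟩, ?_, hTL, ?_, ?_⟩
  · rw [hz', hq, hc]
    linear_combination (y₀ - x) * huv1
  · have h1 : ((Y' : ℤ) : ℝ) < (z' : ℝ) := by exact_mod_cast (by linarith : (Y' : ℤ) < z')
    have h2 : |Y| ≤ (Y' : ℝ) := by
      rw [← hY']
      have h3 : |Y| ≤ (⌈|Y|⌉₊ : ℝ) := Nat.le_ceil _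
      push_cast
      have h4 : (0 : ℝ) ≤ (d : ℝ) ^ n * Bq := by positivity
      have h5 : (0 : ℝ) ≤ (x.natAbs : ℝ) := Nat.cast_nonneg _
      linarith
    rw [Int.cast_natCast] at h1
    exact lt_of_le_of_lt ((le_abs_self Y).trans h2) h1
  · intro i hi
    rcases le_or_gt i n with h1 | h1
    · exact hlow i h1
    · obtain ⟨i', rfl⟩ : ∃ i', i = i' + (n + 1) := ⟨i - (n + 1), by omega⟩
      rw [Function.iterate_add_apply, hTn1]
      obtain ⟨l, hl'⟩ : ∃ l, e + f * t = i' + l := ⟨e + f * t - i', by omega⟩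
      rw [hl', pow_add, mul_assoc, T_pow h hM]
      have h3 : (1 : ℤ) ≤ (d : ℤ) ^ l := by
        exact_mod_cast Nat.one_le_iff_ne_zero.2 (pow_ne_zero _ (by omega))
      exact le_mul_of_one_le_left hzpos.le h3
  · intro i hi hper
    have hzper : (Tm d m r)^[i] z = z := by
      rw [← hTL, ← Function.iterate_add_apply, add_comm, Function.iterate_add_apply, hper]
    have hR' := hR ⟨i, hi, hzper⟩
    have h1 : (Tm d m r)^[i * (n + 1 + (e + f * t))] z' = z' :=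
      Function.IsPeriodicPt.mul_const (f := Tm d m r) hper _
    obtain ⟨i', rfl⟩ : ∃ i', i = i' + 1 := ⟨i - 1, by omega⟩
    rw [add_mul, one_mul, Function.iterate_add_apply, hTL] at h1
    have h2 := hR' (i' * (n + 1 + (e + f * t)))
    rw [h1] at h2
    have := le_abs_self z'
    linarith [Int.natCast_nonneg Y']

/-- suffixes of nice words are nice -/
theorem nice_drop {η : ℝ} {N0 : ℕ} {w : List ℕ} (hw : Nice d η N0 w) (i : ℕ) (hi : i ≤ w.length) :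
    Nice d η N0 (w.drop i) := by
  intro s hs1 hs2 j hj
  rw [List.length_drop] at hs2
  have h1 := hw s hs1 (by omega) j hj
  rw [List.drop_drop, List.length_drop]
  rwa [show i + (w.length - i - s) = w.length - s by omega]

/-- preimages along nice words of a large point of `Lm e` are in `Lm e` -/
theorem pre_mem_Lm (h : Adm d m r) (hmp : ∀ i < d, 0 < m i) {η c C0 : ℝ} {N0 : ℕ}
    (hn : NB d m r η c C0 N0) {e : ℤ} (he : 0 < e) {z : ℤ} (hz : z ∈ Lm d m r e)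
    (hzb : C0 + e * (PP d m : ℝ) ^ N0 ≤ z) {k : ℕ} {w : List ℕ} (hw : w ∈ LW d k)
    (hni : Nice d η N0 w) (hv : Vl d m r z w) : pre d m r z w ∈ Lm d m r e := by
  obtain ⟨hlen, hwd⟩ := mem_LW.1 hw
  have hit := (pre_iter h hw hv).1
  obtain ⟨h1, k', h2⟩ := hz
  refine ⟨fun i => ?_, k' + k, ?_⟩
  · rcases le_or_gt i k with hik | hik
    · -- the suffix
      have hsp : w = w.take i ++ w.drop i := (List.take_append_drop i w).symm
      have hu : ∀ j ∈ w.take i, j < d := fun j hj => hwd j (List.mem_of_mem_take hj)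
      have hvv : ∀ j ∈ w.drop i, j < d := fun j hj => hwd j (List.mem_of_mem_drop hj)
      have hva : Vl d m r z (w.take i ++ w.drop i) := by rwa [← hsp]
      obtain ⟨hv1, hv2⟩ := (Vl_append h hu hvv z).1 hva
      have hp : pre d m r z w = pre d m r (pre d m r z (w.drop i)) (w.take i) := by
        conv_lhs => rw [hsp]
        exact pre_append h hu hvv hv1 hv2
      have hti : w.take i ∈ LW d i := mem_LW.2 ⟨by rw [List.length_take]; omega, hu⟩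
      rw [hp, (pre_iter h hti hv2).1]
      have h3 := pre_lower h hmp hn (B := (e : ℝ)) (by exact_mod_cast he.le) hzb hvv
        (nice_drop hni i (by omega)) hv1
      exact_mod_cast h3
    · obtain ⟨i', rfl⟩ : ∃ i', i = i' + k := ⟨i - k, by omega⟩
      rw [Function.iterate_add_apply, hit]
      exact h1 i'
  · rw [Function.iterate_add_apply, hit]
    exact h2

end Pool.Agent.N681.AI
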