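import Pool.Agent.N681.AI.B4

/-!
When the density of the orbits with minimum `e` is positive.
-/

set_option autoImplicit false

namespace Pool.Agent.N681.AI
open Pool.Agent.H319R3.GC Pool.Agent.H319R3.DN Pool.Agent.H319R3.PO Finset Filter Topology
open Pool.Agent.W39 (nz nz_add nz_mono nz_one cond_all)

variable {d : ℕ} {m r : ℕ → ℤ}

/-- number of nonzero letters of a word -/
def nzw (w : List ℕ) : ℕ := (w.filter (fun i => i ≠ 0)).length

theorem nz_eq (k : ℕ) (x : ℤ) : nz d m r k x = nzw (wd d m r k x) := rfl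

theorem few_sum (hd : 1 ≤ d) (k : ℕ) :
    ∑ w ∈ LW d k, (1 / 2 : ℝ) ^ nzw w = (((d : ℝ) + 1) / 2) ^ k := by
  induction k with
  | zero => simp [LW, nzw]
  | succ k ih =>
    rw [sum_LW_succ, pow_succ']
    have h1 : ∀ i : ℕ, ∑ w ∈ LW d k, (1 / 2 : ℝ) ^ nzw (i :: w) =
        (if i = 0 then 1 else 1 / 2) * (((d : ℝ) + 1) / 2) ^ k := by
      intro i
      rw [← ih, Finset.mul_sum]
      refine Finset.sum_congr rfl fun w _ => ?_
      unfold nzw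
      by_cases hi : i = 0
      · subst hi
        simp
      · rw [List.filter_cons_of_pos (by simpa using hi), List.length_cons, pow_succ, if_neg hi]
        ring
    simp only [h1]
    rw [← Finset.sum_mul]
    congr 1
    obtain ⟨D, rfl⟩ : ∃ D, d = D + 1 := ⟨d - 1, by omega⟩
    rw [Finset.sum_range_succ']
    simp
    ring

/-- words of a given itinerary fill one residue class -/
theorem class_count (h : Adm d m r) {k : ℕ} (w : List ℕ) (N : ℕ) :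
    cp {x : ℤ | wd d m r k x = w} N ≤ N / (d : ℝ) ^ k + 1 := by
  have hd := h.two_le
  have hdk : (0 : ℤ) < (d : ℤ) ^ k := by
    have : (0 : ℤ) < d := by exact_mod_cast (by omega : 0 < d)
    positivity
  unfold cp
  have hinj : Set.InjOn (fun x : ℤ => x / (d : ℤ) ^ k)
      {n : ℤ | n ∈ {x : ℤ | wd d m r k x = w} ∧ 1 ≤ n ∧ n ≤ (N : ℤ)} := by
    rintro x ⟨hx, -⟩ y ⟨hy, -⟩ hxy
    simp only [Set.mem_ofPred_eq] at hx hy
    have h1 := iter_eq h k x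
    have h2 := iter_eq h k y
    rw [hx] at h1
    rw [hy] at h2
    have hw : w ∈ LW d k := by rw [← hx]; exact wd_mem hd k x
    have hcop : IsCoprime ((d : ℤ) ^ k) (Mw m w) := (Mw_cop h (mem_LW.1 hw).2).symm.pow_left
    have h3 : (d : ℤ) ^ k ∣ x - y := by
      apply hcop.dvd_of_dvd_mul_left
      exact ⟨(Tm d m r)^[k] x - (Tm d m r)^[k] y, by linear_combination h2 - h1⟩
    have h4 : x % (d : ℤ) ^ k = y % (d : ℤ) ^ k := (Int.modEq_iff_dvd.2 h3).symm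
    have h5 := Int.emod_add_mul_ediv x ((d : ℤ) ^ k)
    have h6 := Int.emod_add_mul_ediv y ((d : ℤ) ^ k)
    simp only at hxy
    rw [← h5, ← h6, h4, hxy]
  have hmaps : ∀ x ∈ {n : ℤ | n ∈ {x : ℤ | wd d m r k x = w} ∧ 1 ≤ n ∧ n ≤ (N : ℤ)},
      x / (d : ℤ) ^ k ∈ ((Finset.Icc (0 : ℤ) ((N : ℤ) / (d : ℤ) ^ k) : Finset ℤ) : Set ℤ) := by
    rintro x ⟨-, h1, h2⟩
    rw [Finset.mem_coe, Finset.mem_Icc]
    exact ⟨Int.ediv_nonneg (by omega) hdk.le, Int.ediv_le_ediv hdk h2⟩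
  have h1 := Set.ncard_le_ncard_of_injOn _ hmaps hinj (Finset.finite_toSet _)
  rw [Set.ncard_coe_finset, Int.card_Icc] at h1
  have h2 : 0 ≤ (N : ℤ) / (d : ℤ) ^ k := Int.ediv_nonneg (by omega) hdk.le
  have h3 : ((((N : ℤ) / (d : ℤ) ^ k + 1 - 0).toNat : ℕ) : ℝ) = (((N : ℤ) / (d : ℤ) ^ k : ℤ) : ℝ) + 1 := by
    have h4 : ((((N : ℤ) / (d : ℤ) ^ k + 1 - 0).toNat : ℕ) : ℤ) = (N : ℤ) / (d : ℤ) ^ k + 1 := by
      rw [sub_zero, Int.toNat_of_nonneg (by omega)]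
    exact_mod_cast h4
  have h4 : ((((N : ℤ) / (d : ℤ) ^ k : ℤ)) : ℝ) ≤ N / (d : ℝ) ^ k := by
    rw [le_div_iff₀ (by exact_mod_cast hdk)]
    have h5 := Int.ediv_mul_le (N : ℤ) hdk.ne'
    exact_mod_cast h5
  have h5 : (({n : ℤ | n ∈ {x : ℤ | wd d m r k x = w} ∧ 1 ≤ n ∧ n ≤ (N : ℤ)}.ncard : ℕ) : ℝ) ≤
      ((((N : ℤ) / (d : ℤ) ^ k + 1 - 0).toNat : ℕ) : ℝ) := by exact_mod_cast h1
  linarith

/-- few integers have few nonzero letters -/
theorem few_count (h : Adm d m r) (k s N : ℕ) :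
    cp {x : ℤ | nz d m r k x < s} N ≤ 2 ^ s * (((d : ℝ) + 1) / 2) ^ k * (N / (d : ℝ) ^ k + 1) := by
  classical
  have hd := h.two_le
  have e : cp {x : ℤ | nz d m r k x < s} N =
      cp (⋃ w ∈ (LW d k).filter (fun w => nzw w < s), {x : ℤ | wd d m r k x = w}) N := by
    refine cp_congr N fun n _ => ?_
    simp only [Set.mem_ofPred_eq, Set.mem_iUnion, Finset.mem_filter, exists_prop]
    constructor
    · intro h1
      exact ⟨_, ⟨wd_mem hd k n, h1⟩, rfl⟩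
    · rintro ⟨w, ⟨-, h1⟩, h2⟩
      rw [nz_eq, h2]
      exact h1
  rw [e, cp_biUnion _ _ _ (by
    rintro w - w' - hne n - h1 h2
    simp only [Set.mem_ofPred_eq] at h1 h2
    exact hne (h1.symm.trans h2))]
  have h0 : (0 : ℝ) ≤ N / (d : ℝ) ^ k + 1 := by positivity
  calc ∑ w ∈ (LW d k).filter (fun w => nzw w < s), cp {x : ℤ | wd d m r k x = w} N
      ≤ ∑ w ∈ (LW d k).filter (fun w => nzw w < s), (N / (d : ℝ) ^ k + 1) :=
        Finset.sum_le_sum fun w _ => class_count h w N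
    _ ≤ ∑ w ∈ (LW d k).filter (fun w => nzw w < s),
          (2 ^ s * (1 / 2 : ℝ) ^ nzw w) * (N / (d : ℝ) ^ k + 1) := by
        refine Finset.sum_le_sum fun w hw => ?_
        refine le_mul_of_one_le_left h0 ?_
        have h1 := (Finset.mem_filter.1 hw).2
        obtain ⟨t, rfl⟩ : ∃ t, s = nzw w + t := ⟨s - nzw w, by omega⟩
        rw [pow_add, mul_assoc, mul_comm ((2 : ℝ) ^ t), ← mul_assoc, ← mul_pow]
        norm_num
        exact one_le_pow₀ (by norm_num)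
    _ ≤ ∑ w ∈ LW d k, (2 ^ s * (1 / 2 : ℝ) ^ nzw w) * (N / (d : ℝ) ^ k + 1) := by
        refine Finset.sum_le_sum_of_subset_of_nonneg (Finset.filter_subset _ _) fun w _ _ => ?_
        positivity
    _ = 2 ^ s * (((d : ℝ) + 1) / 2) ^ k * (N / (d : ℝ) ^ k + 1) := by
        rw [← Finset.sum_mul, ← Finset.mul_sum, few_sum (by omega)]

/-- positive density implies infinite depth -/
theorem depth_of_pos (h : Adm d m r) {e : ℤ} (he : 0 < e) {δ : ℝ} (hδ : 0 < δ)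
    (hD : HasD (Lm d m r e) δ) (s : ℕ) : ∃ (x : ℤ) (k : ℕ), (Tm d m r)^[k] x = e ∧ s ≤ nz d m r k x := by
  have hd := h.two_le
  have hd2 : (2 : ℝ) ≤ d := by exact_mod_cast hd
  obtain ⟨Rb, hR0, hR⟩ := exists_Rb d r
  -- choice of `k`
  have hθ : ((d : ℝ) + 1) / (2 * d) < 1 := by
    rw [div_lt_one (by positivity)]
    linarith
  have hθ0 : 0 ≤ ((d : ℝ) + 1) / (2 * d) := by positivity
  obtain ⟨k, hk⟩ : ∃ k : ℕ, 2 ^ s * (((d : ℝ) + 1) / (2 * d)) ^ k < δ / 2 := by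
    obtain ⟨k, hk⟩ := exists_pow_lt_of_lt_one (show (0 : ℝ) < δ / 2 / 2 ^ s by positivity) hθ
    refine ⟨k, ?_⟩
    rw [lt_div_iff₀ (by positivity)] at hk
    rwa [mul_comm]
  by_contra hcon
  push Not at hcon
  obtain ⟨B, hB⟩ := exists_nat_ge ((((e : ℝ) + Rb + 1) * (d : ℝ) ^ k))
  -- all large points have few nonzero letters
  have hsub : ∀ n : ℤ, 1 ≤ n → n ∈ Lm d m r e → n ∈ {x : ℤ | nz d m r k x < s} ∪ {x : ℤ | x ≤ (B : ℤ)} := by
    intro n hn1 hn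
    by_contra hnot
    rw [Set.mem_union, not_or] at hnot
    simp only [Set.mem_ofPred_eq, not_lt, not_le] at hnot
    obtain ⟨h1, h2⟩ := hnot
    have h3 : (((e : ℝ) + Rb + 1) * (d : ℝ) ^ k) ≤ |(n : ℝ)| := by
      refine hB.trans ?_
      have h4 : (0 : ℝ) < n := by exact_mod_cast (by omega : 0 < n)
      rw [abs_of_pos h4]
      have h5 : ((B : ℤ) : ℝ) ≤ (n : ℝ) := by exact_mod_cast h2.le
      exact_mod_cast h5
    have hf := far_terms h hR hR0 h3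
    obtain ⟨-, k', hk'⟩ := hn
    have hlt : k < k' := by
      by_contra h4
      push Not at h4
      have h5 := hf k' h4
      rw [hk'] at h5
      have heR : (0 : ℝ) < e := by exact_mod_cast he
      rw [abs_of_pos heR] at h5
      exact lt_irrefl _ h5
    have h6 := hcon n k' hk'
    have h7 := nz_mono (d := d) (m := m) (r := r) hlt.le n
    omega
  have hle : ∀ N : ℕ, cp (Lm d m r e) N ≤
      2 ^ s * (((d : ℝ) + 1) / 2) ^ k * (N / (d : ℝ) ^ k + 1) + B := by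
    intro N
    refine (cp_mono N hsub).trans ?_
    have h1 : cp ({x : ℤ | nz d m r k x < s} ∪ {x : ℤ | x ≤ (B : ℤ)}) N ≤
        cp {x : ℤ | nz d m r k x < s} N + cp {x : ℤ | x ≤ (B : ℤ)} N := by
      unfold cp
      have e1 : {n : ℤ | n ∈ {x : ℤ | nz d m r k x < s} ∪ {x : ℤ | x ≤ (B : ℤ)} ∧ 1 ≤ n ∧ n ≤ (N : ℤ)} =
        {n : ℤ | n ∈ {x : ℤ | nz d m r k x < s} ∧ 1 ≤ n ∧ n ≤ (N : ℤ)} ∪
        {n : ℤ | n ∈ {x : ℤ | x ≤ (B : ℤ)} ∧ 1 ≤ n ∧ n ≤ (N : ℤ)} := by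
        ext n
        simp only [Set.mem_union, Set.mem_ofPred_eq]
        tauto
      rw [e1]
      exact_mod_cast Set.ncard_union_le _ _
    have h2 : cp {x : ℤ | x ≤ (B : ℤ)} N ≤ B := by
      unfold cp
      have h3 : {n : ℤ | n ∈ {x : ℤ | x ≤ (B : ℤ)} ∧ 1 ≤ n ∧ n ≤ (N : ℤ)} ⊆
          ((Finset.Icc (1 : ℤ) B : Finset ℤ) : Set ℤ) := by
        rintro n ⟨h4, h5, -⟩
        rw [Finset.mem_coe, Finset.mem_Icc]
        exact ⟨h5, h4⟩
      have h4 := Set.ncard_le_ncard h3 (Finset.finite_toSet _)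
      rw [Set.ncard_coe_finset, Int.card_Icc] at h4
      have h5 : ((B : ℤ) + 1 - 1).toNat = B := by simp
      rw [h5] at h4
      exact_mod_cast h4
    have h3 := few_count h k s N
    linarith
  -- the limit
  have hlim : Tendsto (fun N : ℕ => 2 ^ s * (((d : ℝ) + 1) / (2 * d)) ^ k +
      (2 ^ s * (((d : ℝ) + 1) / 2) ^ k + B) * (1 / (N : ℝ))) atTop
      (𝓝 (2 ^ s * (((d : ℝ) + 1) / (2 * d)) ^ k + (2 ^ s * (((d : ℝ) + 1) / 2) ^ k + B) * 0)) :=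
    tendsto_const_nhds.add (tendsto_one_div_atTop_nhds_zero_nat.const_mul _)
  rw [mul_zero, add_zero] at hlim
  have hfin : δ ≤ 2 ^ s * (((d : ℝ) + 1) / (2 * d)) ^ k := by
    refine le_of_tendsto_of_tendsto hD hlim ?_
    filter_upwards [eventually_gt_atTop 0] with N hN
    have hN0 : (0 : ℝ) < N := by exact_mod_cast hN
    rw [div_le_iff₀ hN0]
    refine (hle N).trans (le_of_eq ?_)
    have e1 : (((d : ℝ) + 1) / (2 * d)) ^ k = (((d : ℝ) + 1) / 2) ^ k / (d : ℝ) ^ k := by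
      rw [← div_pow]
      congr 1
      field_simp
    rw [e1]
    field_simp
    ring
  linarith

/-- the criterion for positive density -/
theorem Lm_pos (h : Adm d m r) {μ : ℕ} (hμ : 2 ≤ μ) (hM : Mol d μ m r) : ∃ D : ℕ, 0 < D ∧
    ∀ (e : ℤ), 0 < e → ∀ (x : ℤ) (k s : ℕ) (z : ℤ), z = (Tm d m r)^[k] x → z ∈ Lm d m r e →
      (((wd d m r k x).filter (fun i => i ≠ 0)).length = s + 1) →
      (∀ p : ℕ, p.Prime → p ∣ μ → padicValInt p (D * z) ≤ s * padicValNat p μ) →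
      ¬ Tendsto (fun X : ℝ => G (Lm d m r e) 1 X / X) atTop (𝓝 0) := by
  obtain ⟨D, hD, hh⟩ := hit2 h hM
  obtain ⟨η, c, C0, N0, N, y₀, hn, hN0, hN1, hU⟩ := good_class h
  refine ⟨D, hD, ?_⟩
  intro e he x k s z hz hzL hlen hv hlim
  have hC : 1 ≤ C0 := hn.one_le
  have hmp : ∀ i < d, 0 < m i := by
    intro i hi
    rcases Nat.eq_zero_or_pos i with h0 | h0
    · rw [h0, hM.m0]
      exact one_pos
    · rw [hM.mi i h0 hi]
      exact_mod_cast (by omega : 0 < μ)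
  have hzpos : 0 < z := lt_of_lt_of_le he (hzL.1 0)
  obtain ⟨z', L, hdvd, hbig, hTL, hpath, hnp⟩ := hh x k s z hz hzpos hlen hv ((d - 1) * N) y₀
    (C0 + e * (PP d m : ℝ) ^ N0)
  have hdvd' : (PP d m : ℤ) ^ N ∣ z' - y₀ := by
    rw [PP_moeller h.two_le hM, Nat.cast_pow, ← pow_mul]
    exact hdvd
  have heR : (0 : ℝ) < e := by exact_mod_cast he
  have hP0 : (0 : ℝ) ≤ (PP d m : ℝ) ^ N0 := by positivity
  have hz'0 : 0 < z' := lt_of_lt_of_le hzpos (hpath 0 (Nat.zero_le _))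
  have hz'R : (0 : ℝ) < z' := by exact_mod_cast hz'0
  have hz'L : z' ∈ Lm d m r e := by
    refine ⟨fun i => ?_, ?_⟩
    · rcases le_or_gt i L with hi | hi
      · exact (hzL.1 0).trans (hpath i hi)
      · obtain ⟨i', rfl⟩ : ∃ i', i = i' + L := ⟨i - L, by omega⟩
        rw [Function.iterate_add_apply, hTL]
        exact hzL.1 i'
    · obtain ⟨k', hk'⟩ := hzL.2
      refine ⟨k' + L, ?_⟩
      rw [Function.iterate_add_apply, hTL, hk']
  have hC0z : C0 < |(z' : ℝ)| := by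
    rw [abs_of_pos hz'R]
    nlinarith
  obtain ⟨c', X₀, hc', hlow⟩ := harm_lower' h hmp hn hz'0 hC0z (hU z' hdvd') hnp
    (S := Lm d m r e) (fun k w hw hni hv => pre_mem_Lm h hmp hn he hz'L hbig.le hw hni hv)
  obtain ⟨X₁, hX₁⟩ := harm_small (Or.inl rfl) hlim (ε := c' / 4) (by positivity)
  set X : ℕ := X₀ + X₁ + 2 with hX
  have a1 := hlow X (by omega)
  have a2 := hX₁ X (by omega)
  have a4 : 0 < c' * Real.log X :=
    mul_pos hc' (Real.log_pos (by exact_mod_cast (by omega : 1 < X)))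
  nlinarith

/-- infinite depth implies positive density -/
theorem pos_of_depth (h : Adm d m r) {μ : ℕ} (hμ : 2 ≤ μ) (hM : Mol d μ m r) {e : ℤ} (he : 0 < e)
    (hmin : ∀ k, e ≤ (Tm d m r)^[k] e)
    (hdep : ∀ s : ℕ, ∃ (x : ℤ) (k : ℕ), (Tm d m r)^[k] x = e ∧ s ≤ nz d m r k x) :
    ¬ Tendsto (fun X : ℝ => G (Lm d m r e) 1 X / X) atTop (𝓝 0) := by
  obtain ⟨D, hD, H⟩ := Lm_pos h hμ hM
  obtain ⟨x, k, hx, hk⟩ := hdep ((D * e : ℤ).natAbs + 1)
  have hDe : (D : ℤ) * e ≠ 0 := mul_ne_zero (by exact_mod_cast hD.ne') he.ne'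
  refine H e he x k (nz d m r k x - 1) e hx.symm ⟨hmin, 0, rfl⟩ ?_ ?_
  · show nz d m r k x = _
    omega
  · intro p hp hpμ
    have := Fact.mk hp
    have h1 : p ^ padicValInt p (D * e) ∣ (D * e : ℤ).natAbs := pow_padicValNat_dvd
    have h2 := Nat.le_of_dvd (Int.natAbs_pos.2 hDe) h1
    have h3 : padicValInt p (D * e) < p ^ padicValInt p (D * e) := Nat.lt_pow_self hp.one_lt
    have h4 : 1 ≤ padicValNat p μ := one_le_padicValNat_of_dvd (by omega) hpμ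
    calc padicValInt p (D * e) ≤ (nz d m r k x - 1) * 1 := by omega
      _ ≤ _ := Nat.mul_le_mul_left _ h4

/-- cycles -/
theorem pos_of_cycle (h : Adm d m r) {μ : ℕ} (hμ : 2 ≤ μ) (hM : Mol d μ m r) {e : ℤ} (he : 0 < e)
    (hmin : ∀ k, e ≤ (Tm d m r)^[k] e) {p : ℕ} (hp : 1 ≤ p) (hper : (Tm d m r)^[p] e = e) :
    ¬ Tendsto (fun X : ℝ => G (Lm d m r e) 1 X / X) atTop (𝓝 0) := by
  obtain ⟨D, hD, H⟩ := Lm_pos h hμ hM
  obtain ⟨k, s, h1, h2, h3⟩ := cond_periodic h hM he.ne' hp hper D hD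
  exact H e he e k s e h1.symm ⟨hmin, 0, rfl⟩ h2 h3

/-- late tail minima -/
theorem pos_of_tail (h : Adm d m r) {μ : ℕ} (hμ : 2 ≤ μ) (hM : Mol d μ m r) {x : ℤ}
    (hx : ∀ k : ℕ, (Tm d m r)^[k] x ≠ 0) : ∃ k₀ : ℕ, ∀ k, k₀ ≤ k → 0 < (Tm d m r)^[k] x →
      (∀ j, k ≤ j → (Tm d m r)^[k] x ≤ (Tm d m r)^[j] x) →
      ¬ Tendsto (fun X : ℝ => G (Lm d m r ((Tm d m r)^[k] x)) 1 X / X) atTop (𝓝 0) := by
  obtain ⟨D, hD, H⟩ := Lm_pos h hμ hM
  obtain ⟨k₀, hk₀⟩ := cond_all h (by omega) hM hx D hD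
  refine ⟨k₀, fun k hk hpos hmin => ?_⟩
  obtain ⟨s, h1, h2⟩ := hk₀ k hk
  refine H _ hpos x k s _ rfl ⟨fun j => ?_, 0, rfl⟩ h1 h2
  rw [← Function.iterate_add_apply]
  exact hmin _ (by omega)

end Pool.Agent.N681.AI
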