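import Pool.Agent.N681.AI.B5

/-!
Above every minimum there is one of positive density.
-/

set_option autoImplicit false

namespace Pool.Agent.N681.AI
open Pool.Agent.H319R3.GC Pool.Agent.H319R3.DN Pool.Agent.H319R3.PO Finset Filter Topology
open Pool.Agent.W39 (nz nz_add nz_mono nz_one cond_all)

variable {d : ℕ} {m r : ℕ → ℤ}

/-- a sequence of positive integers attains its minimum over `k ≥ k₀` -/
theorem exists_tail_min {f : ℕ → ℤ} (hf : ∀ k, 0 < f k) (k₀ : ℕ) :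
    ∃ k, k₀ ≤ k ∧ ∀ j, k₀ ≤ j → f k ≤ f j := by
  classical
  have hex : ∃ v : ℕ, ∃ j : ℕ, k₀ ≤ j ∧ (f j).toNat = v := ⟨_, k₀, le_rfl, rfl⟩
  obtain ⟨k, hk, hv⟩ := Nat.find_spec hex
  refine ⟨k, hk, fun j hj => ?_⟩
  have h1 := Nat.find_min' hex ⟨j, hj, rfl⟩
  have h2 := hf j
  have h3 := hf k
  omega

theorem exists_pos_above (h : Adm d m r) {μ : ℕ} (hμ : 2 ≤ μ) (hM : Mol d μ m r) {e : ℤ}
    (he : 0 < e) (hmin : ∀ k, e ≤ (Tm d m r)^[k] e) :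
    ∃ e' : ℤ, e ≤ e' ∧ ¬ Tendsto (fun X : ℝ => G (Lm d m r e') 1 X / X) atTop (𝓝 0) := by
  have hpos : ∀ k, 0 < (Tm d m r)^[k] e := fun k => lt_of_lt_of_le he (hmin k)
  obtain ⟨k₀, hk₀⟩ := pos_of_tail h hμ hM (fun k => (hpos k).ne')
  obtain ⟨k, hk, hk'⟩ := exists_tail_min (f := fun k => (Tm d m r)^[k] e) hpos k₀
  exact ⟨_, hmin k, hk₀ k hk (hpos k) fun j hj => hk' j (by omega)⟩

/-- every positive orbit has a minimum -/
theorem exists_min {n : ℤ} (hpos : ∀ k, 0 < (Tm d m r)^[k] n) : ∃ e : ℤ, 0 < e ∧ n ∈ Lm d m r e := by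
  obtain ⟨k, -, hk⟩ := exists_tail_min (f := fun k => (Tm d m r)^[k] n) hpos 0
  exact ⟨_, hpos k, fun j => hk j (Nat.zero_le _), k, rfl⟩

theorem Lm_disj {e e' : ℤ} (hne : e ≠ e') {n : ℤ} (h1 : n ∈ Lm d m r e) : n ∉ Lm d m r e' := by
  intro h2
  obtain ⟨a1, k1, b1⟩ := h1
  obtain ⟨a2, k2, b2⟩ := h2
  have c1 := a1 k2
  have c2 := a2 k1
  rw [b2] at c1
  rw [b1] at c2
  exact hne (le_antisymm c1 c2)

theorem Lm_not_Ng {e : ℤ} (he : 0 < e) {n : ℤ} (h1 : n ∈ Lm d m r e) : n ∉ Ng d m r := by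
  rintro ⟨k, hk⟩
  have := h1.1 k
  omega

end Pool.Agent.N681.AI
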