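import Pool.Agent.N681.AI.B1
import Pool.Agent.N681.AI.B2

/-!
Natural densities on both sides; entrance laws.
-/

set_option autoImplicit false

namespace Pool.Agent.N681.AI
open Pool.Agent.H319R3.GC Pool.Agent.H319R3.DN Finset Filter Topology

variable {d : ℕ} {m r : ℕ → ℤ}

/-- **The law, abstractly.** `N₀` a set of density `η`, `L e` (`e ∈ E`) disjoint sets of densities `D e`
disjoint from `N₀`; the positive integers outside of `N₀` and of the `L e` with `e ≤ y` have upper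
density at most `C / y^c`. -/
theorem law_sum0 {E : Set ℤ} (hE : ∀ e ∈ E, 0 ≤ e) {N₀ : Set ℤ} {L : ℤ → Set ℤ} {η : ℝ} {D : ℤ → ℝ}
    {C c : ℝ} (hc : 0 < c)
    (h0 : HasD N₀ η) (hL : ∀ e ∈ E, HasD (L e) (D e))
    (hd0 : ∀ e ∈ E, ∀ n : ℤ, n ∈ L e → n ∉ N₀)
    (hdd : ∀ e ∈ E, ∀ e' ∈ E, e ≠ e' → ∀ n : ℤ, n ∈ L e → n ∉ L e')
    (hcap : ∀ (N : ℕ) (y : ℝ), 1 ≤ N → 1 ≤ y →
      cp {n : ℤ | n ∉ N₀ ∧ ∀ e ∈ E, (e : ℝ) ≤ y → n ∉ L e} N ≤ C * N / y ^ c) :
    HasSum (fun e : E => D e) (1 - η) ∧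
      ∀ y : ℝ, 1 ≤ y → ∀ S : Finset ℤ, (∀ e ∈ S, e ∈ E ∧ y < (e : ℝ)) → ∑ e ∈ S, D e ≤ C / y ^ c := by
  classical
  have hD0 : ∀ e ∈ E, 0 ≤ D e := fun e he => (hL e he).nonneg
  -- densities of finite unions
  have hfin : ∀ F : Finset ℤ, (∀ e ∈ F, e ∈ E) → HasD (N₀ ∪ ⋃ e ∈ F, L e) (η + ∑ e ∈ F, D e) := by
    intro F hF
    unfold HasD
    have h1 : ∀ N : ℕ, cp (N₀ ∪ ⋃ e ∈ F, L e) N / N = cp N₀ N / N + ∑ e ∈ F, cp (L e) N / N := by
      intro N
      rw [cp_union, cp_biUnion, add_div, Finset.sum_div]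
      · intro e he e' he' hne n _ h2
        exact hdd e (hF e he) e' (hF e' he') hne n h2
      · intro n _ h2 h3
        simp only [Set.mem_iUnion] at h3
        obtain ⟨e, he, h4⟩ := h3
        exact hd0 e (hF e he) n h4 h2
    simp only [h1]
    exact h0.add (tendsto_finsetSum F fun e he => hL e (hF e he))
  have hup : ∀ F : Finset ℤ, (∀ e ∈ F, e ∈ E) → η + ∑ e ∈ F, D e ≤ 1 := fun F hF =>
    (hfin F hF).le_one
  -- the elements up to `y`
  have hEy : ∀ y : ℝ, ∃ F : Finset ℤ, ∀ e : ℤ, e ∈ F ↔ e ∈ E ∧ (e : ℝ) ≤ y := by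
    intro y
    have hf : {e : ℤ | e ∈ E ∧ (e : ℝ) ≤ y}.Finite := by
      apply (Set.finite_Icc (0 : ℤ) ⌈y⌉).subset
      rintro e ⟨h1, h2⟩
      refine ⟨hE e h1, ?_⟩
      have h3 : (e : ℝ) ≤ (⌈y⌉ : ℤ) := h2.trans (Int.le_ceil y)
      exact_mod_cast h3
    exact ⟨hf.toFinset, fun e => by simp⟩
  have hlow : ∀ (y : ℝ) (F : Finset ℤ), 1 ≤ y → (∀ e : ℤ, e ∈ F ↔ e ∈ E ∧ (e : ℝ) ≤ y) →
      1 - C / y ^ c ≤ η + ∑ e ∈ F, D e := by
    intro y F hy hF
    have h1 := hfin F fun e he => ((hF e).1 he).1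
    refine ge_of_tendsto h1 ?_
    filter_upwards [eventually_ge_atTop 1] with N hN
    have hN0 : (0 : ℝ) < N := by exact_mod_cast (by omega : 0 < N)
    have h2 := hcap N y hN hy
    have h3 : (N : ℝ) = cp (N₀ ∪ ⋃ e ∈ F, L e) N +
        cp {n : ℤ | n ∉ N₀ ∧ ∀ e ∈ E, (e : ℝ) ≤ y → n ∉ L e} N := by
      rw [← cp_univ N, ← cp_union]
      · refine cp_congr N fun n _ => ?_
        simp only [Set.mem_univ, Set.mem_union, Set.mem_iUnion, Set.mem_ofPred_eq, true_iff]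
        by_cases h4 : n ∈ N₀
        · exact Or.inl (Or.inl h4)
        · by_cases h5 : ∃ e, ∃ _ : e ∈ F, n ∈ L e
          · exact Or.inl (Or.inr h5)
          · refine Or.inr ⟨h4, fun e he hey h6 => h5 ⟨e, (hF e).2 ⟨he, hey⟩, h6⟩⟩
      · intro n _ h4 h5
        simp only [Set.mem_union, Set.mem_iUnion] at h4
        rcases h4 with h4 | ⟨e, he, h6⟩
        · exact h5.1 h4
        · obtain ⟨g1, g2⟩ := (hF e).1 he
          exact h5.2 e g1 g2 h6
    rw [le_div_iff₀ hN0]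
    have h4 : (1 - C / y ^ c) * N = N - C * N / y ^ c := by ring
    rw [h4]
    linarith
  -- the sum
  have hsub : ∀ F : Finset E, ∑ e ∈ F, D e = ∑ e ∈ F.map (Function.Embedding.subtype _), D e := by
    intro F
    rw [Finset.sum_map]
    rfl
  have hmem : ∀ F : Finset E, ∀ e ∈ F.map (Function.Embedding.subtype _), e ∈ E := by
    intro F e he
    obtain ⟨e', -, rfl⟩ := Finset.mem_map.1 he
    exact e'.2
  have hbd : ∀ F : Finset E, ∑ e ∈ F, D e ≤ 1 - η := by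
    intro F
    rw [hsub F]
    have := hup _ (hmem F)
    linarith
  have hsumm : Summable (fun e : E => D e) :=
    summable_of_sum_le (fun e => hD0 e e.2) hbd
  have hle : ∑' e : E, D e ≤ 1 - η := hsumm.tsum_le_of_sum_le hbd
  have hge : 1 - η ≤ ∑' e : E, D e := by
    have hlim : Tendsto (fun y : ℝ => 1 - C / y ^ c - η) atTop (𝓝 (1 - 0 - η)) := by
      refine (tendsto_const_nhds.sub ?_).sub tendsto_const_nhds
      exact (tendsto_rpow_atTop hc).const_div_atTop C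
    rw [sub_zero] at hlim
    refine le_of_tendsto hlim ?_
    filter_upwards [eventually_ge_atTop (1 : ℝ)] with y hy
    obtain ⟨F, hF⟩ := hEy y
    have h1 := hlow y F hy hF
    have h2 : ∑ e ∈ F, D e ≤ ∑' e : E, D e := by
      have h3 : ∑ e ∈ F, D e = ∑ e ∈ F.attach.image (fun e => (⟨e.1, ((hF e.1).1 e.2).1⟩ : E)), D e := by
        rw [Finset.sum_image, ← Finset.sum_attach F]
        intro a _ b _ hab
        apply Subtype.ext
        have := congrArg Subtype.val hab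
        exact this
      rw [h3]
      exact hsumm.sum_le_tsum _ fun e _ => hD0 e e.2
    linarith
  refine ⟨?_, ?_⟩
  · have := hsumm.hasSum
    rwa [le_antisymm hle hge] at this
  · intro y hy S hS
    obtain ⟨F, hF⟩ := hEy y
    have h1 := hlow y F hy hF
    have hdisj : Disjoint F S := by
      rw [Finset.disjoint_left]
      intro e he he'
      have h2 := ((hF e).1 he).2
      have h3 := (hS e he').2
      linarith
    have h2 := hup (F ∪ S) fun e he => by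
      rcases Finset.mem_union.1 he with h3 | h3
      · exact ((hF e).1 h3).1
      · exact (hS e h3).1
    rw [Finset.sum_union hdisj] at h2
    linarith


/-- natural density on the side `σ` -/
def HasDs (S : Set ℤ) (σ : ℤ) (δ : ℝ) : Prop :=
  Tendsto (fun N : ℕ => (Set.ncard {x : ℤ | x ∈ S ∧ 1 ≤ σ * x ∧ σ * x ≤ N} : ℝ) / N) atTop (𝓝 δ)

theorem ncard_side {σ : ℤ} (hσ : σ = 1 ∨ σ = -1) (S : Set ℤ) (N : ℕ) :
    (Set.ncard {x : ℤ | x ∈ S ∧ 1 ≤ σ * x ∧ σ * x ≤ N} : ℝ) = cp {n : ℤ | σ * n ∈ S} N := by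
  have hσσ : σ * σ = 1 := by rcases hσ with h | h <;> rw [h] <;> norm_num
  unfold cp
  congr 1
  have e : {x : ℤ | x ∈ S ∧ 1 ≤ σ * x ∧ σ * x ≤ N} =
      (fun n : ℤ => σ * n) '' {n : ℤ | n ∈ {n : ℤ | σ * n ∈ S} ∧ 1 ≤ n ∧ n ≤ (N : ℤ)} := by
    ext x
    simp only [Set.mem_ofPred_eq, Set.mem_image]
    constructor
    · rintro ⟨h1, h2, h3⟩
      refine ⟨σ * x, ⟨?_, h2, h3⟩, ?_⟩
      · rwa [← mul_assoc, hσσ, one_mul]
      · rw [← mul_assoc, hσσ, one_mul]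
    · rintro ⟨n, ⟨h1, h2, h3⟩, rfl⟩
      refine ⟨h1, ?_, ?_⟩
      · rwa [← mul_assoc, hσσ, one_mul]
      · rwa [← mul_assoc, hσσ, one_mul]
  rw [e, Set.ncard_image_of_injective]
  intro a b hab
  have h1 : σ * (σ * a) = σ * (σ * b) := congrArg (σ * ·) hab
  rwa [← mul_assoc, ← mul_assoc, hσσ, one_mul, one_mul] at h1

theorem hasDs_iff {σ : ℤ} (hσ : σ = 1 ∨ σ = -1) (S : Set ℤ) (δ : ℝ) :
    HasDs S σ δ ↔ HasD {n : ℤ | σ * n ∈ S} δ := by
  unfold HasDs HasD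
  simp only [ncard_side hσ]

/-- the densities of an almost invariant set on both sides -/
theorem hasDs_of_ainv {c₀ : ℝ} (h : Adm d m r) {i j : ℕ} (hi : i < d) (hj : j < d)
    (hij : (m i).natAbs ≠ (m j).natAbs) {S : Set ℤ} (hS : AInv d m r c₀ S) :
    ∃ a b : ℝ, HasDs S 1 a ∧ HasDs S (-1) b ∧ ((∃ i < d, m i < 0) → a = b) := by
  obtain ⟨l, hl, hl2⟩ := density h hi hj hij hS
  have key : ∀ σ : ℤ, (σ = 1 ∨ σ = -1) → HasDs S σ (l σ) := by
    intro σ hσ
    have h1 := hl σ hσ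
    have hGN : ∀ N : ℕ, G S σ ((N : ℝ) + 1) =
        (Set.ncard {x : ℤ | x ∈ S ∧ 1 ≤ σ * x ∧ σ * x ≤ N} : ℝ) := by
      intro N
      unfold G
      congr 2
      ext x
      simp only [Set.mem_ofPred_eq]
      constructor
      · rintro ⟨g1, g2, g3⟩
        refine ⟨g1, by omega, ?_⟩
        have h4 : (σ * x : ℤ) < (N : ℤ) + 1 := by exact_mod_cast g3
        omega
      · rintro ⟨g1, g2, g3⟩
        refine ⟨g1, by omega, ?_⟩
        have h4 : (σ * x : ℤ) < (N : ℤ) + 1 := by omega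
        exact_mod_cast h4
    unfold HasDs
    have g1 : Tendsto (fun N : ℕ => ((N : ℝ) + 1)) atTop atTop :=
      tendsto_atTop_add_const_right _ _ tendsto_natCast_atTop_atTop
    have g2 := h1.comp g1
    have g3 : Tendsto (fun N : ℕ => ((N : ℝ) + 1) / N) atTop (𝓝 1) := by
      have g4 : Tendsto (fun N : ℕ => 1 + 1 / (N : ℝ)) atTop (𝓝 (1 + 0)) :=
        tendsto_const_nhds.add tendsto_one_div_atTop_nhds_zero_nat
      rw [add_zero] at g4
      refine g4.congr' ?_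
      filter_upwards [eventually_gt_atTop 0] with N hN
      have : (0 : ℝ) < N := by exact_mod_cast hN
      field_simp
    have g5 := g2.mul g3
    rw [mul_one] at g5
    refine g5.congr' ?_
    filter_upwards [eventually_gt_atTop 0] with N hN
    have : (0 : ℝ) < N := by exact_mod_cast hN
    simp only [Function.comp]
    rw [hGN N]
    field_simp
  exact ⟨l 1, l (-1), key 1 (Or.inl rfl), key (-1) (Or.inr rfl), hl2⟩

/-- the integers whose orbit enters `F` at `a` -/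
def Ent (d : ℕ) (m r : ℕ → ℤ) (F : Set ℤ) (a : ℤ) : Set ℤ :=
  {x : ℤ | ∃ k, (Tm d m r)^[k] x = a ∧ ∀ j < k, (Tm d m r)^[j] x ∉ F}

theorem Ent_ainv (h : Adm d m r) {F : Set ℤ} (hF : F.Finite) {a : ℤ} (ha : a ∈ F) :
    ∃ c₀ : ℝ, AInv d m r c₀ (Ent d m r F a) := by
  obtain ⟨Rb, hR0, hR⟩ := exists_Rb d r
  obtain ⟨B, hB⟩ : ∃ B : ℝ, ∀ x ∈ F, |(x : ℝ)| ≤ B := by
    obtain ⟨B, hB⟩ := (hF.image fun x : ℤ => |(x : ℝ)|).bddAbove
    exact ⟨B, fun x hx => hB ⟨x, hx, rfl⟩⟩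
  refine ⟨B + Rb + 1, fun k x hx => ?_⟩
  have hf := far_terms h hR hR0 hx
  have hnot : ∀ j ≤ k, (Tm d m r)^[j] x ∉ F := fun j hj hmem => by
    have h1 := hf j hj
    have h2 := hB _ hmem
    linarith
  constructor
  · rintro ⟨k', h1, h2⟩
    have hkk : k < k' := by
      by_contra hcon
      push Not at hcon
      exact hnot k' hcon (by rw [h1]; exact ha)
    refine ⟨k' - k, ?_, fun j hj => ?_⟩
    · rw [← Function.iterate_add_apply, Nat.sub_add_cancel hkk.le]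
      exact h1
    · rw [← Function.iterate_add_apply]
      exact h2 _ (by omega)
  · rintro ⟨k', h1, h2⟩
    refine ⟨k' + k, ?_, fun j hj => ?_⟩
    · rw [Function.iterate_add_apply]
      exact h1
    · rcases le_or_gt j k with h3 | h3
      · exact hnot j h3
      · obtain ⟨j', rfl⟩ : ∃ j', j = j' + k := ⟨j - k, by omega⟩
        rw [Function.iterate_add_apply]
        exact h2 j' (by omega)

/-- the integers whose orbit has minimum modulus `e` -/
def Mm (d : ℕ) (m r : ℕ → ℤ) (e : ℤ) : Set ℤ :=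
  {x : ℤ | (∀ k, e ≤ |(Tm d m r)^[k] x|) ∧ ∃ k, |(Tm d m r)^[k] x| = e}

theorem Mm_ainv (h : Adm d m r) (e : ℤ) : ∃ c₀ : ℝ, AInv d m r c₀ (Mm d m r e) := by
  obtain ⟨Rb, hR0, hR⟩ := exists_Rb d r
  refine ⟨|(e : ℝ)| + Rb + 1, fun k x hx => ?_⟩
  have hf := far_terms h hR hR0 hx
  have hnot : ∀ j ≤ k, e < |(Tm d m r)^[j] x| := fun j hj => by
    have h1 := hf j hj
    have h2 : (e : ℝ) < ((|(Tm d m r)^[j] x| : ℤ) : ℝ) := by
      rw [Int.cast_abs]
      exact lt_of_le_of_lt (le_abs_self _) h1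
    exact_mod_cast h2
  constructor
  · rintro ⟨h1, k', h2⟩
    have hkk : k < k' := by
      by_contra hcon
      push Not at hcon
      have := hnot k' hcon
      omega
    refine ⟨fun j => ?_, k' - k, ?_⟩
    · rw [← Function.iterate_add_apply]
      exact h1 _
    · rw [← Function.iterate_add_apply, Nat.sub_add_cancel hkk.le]
      exact h2
  · rintro ⟨h1, k', h2⟩
    refine ⟨fun j => ?_, k' + k, ?_⟩
    · rcases le_or_gt j k with h3 | h3
      · exact (hnot j h3).le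
      · obtain ⟨j', rfl⟩ : ∃ j', j = j' + k := ⟨j - k, by omega⟩
        rw [Function.iterate_add_apply]
        exact h1 j'
    · rw [Function.iterate_add_apply]
      exact h2

/-- every orbit has a minimum modulus -/
theorem exists_Mm (x : ℤ) : ∃ e : ℤ, 0 ≤ e ∧ x ∈ Mm d m r e := by
  classical
  have hex : ∃ v : ℕ, ∃ j : ℕ, ((Tm d m r)^[j] x).natAbs = v := ⟨_, 0, rfl⟩
  obtain ⟨k, hk⟩ := Nat.find_spec hex
  refine ⟨(Nat.find hex : ℕ), Int.natCast_nonneg _, fun j => ?_, k, ?_⟩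
  · rw [Int.abs_eq_natAbs]
    exact_mod_cast Nat.find_min' hex ⟨j, rfl⟩
  · rw [Int.abs_eq_natAbs]
    exact_mod_cast hk

theorem Mm_disj {e e' : ℤ} (hne : e ≠ e') {n : ℤ} (h1 : n ∈ Mm d m r e) : n ∉ Mm d m r e' := by
  intro h2
  obtain ⟨a1, k1, b1⟩ := h1
  obtain ⟨a2, k2, b2⟩ := h2
  have c1 := a1 k2
  have c2 := a2 k1
  rw [b2] at c1
  rw [b1] at c2
  exact hne (le_antisymm c1 c2)

end Pool.Agent.N681.AI
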