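import Pool.Agent.N681.AI.B7

/-!
Countable additivity of the law.
-/

set_option autoImplicit false

namespace Pool.Agent.N681.AI
open Pool.Agent.H319R3.GC Pool.Agent.H319R3.DN Finset Filter Topology

theorem law_union {E : Set ℤ} (hE : ∀ e ∈ E, 0 ≤ e) {L : ℤ → Set ℤ} {D : ℤ → ℝ}
    {C c : ℝ} (hc : 0 < c) (hL : ∀ e ∈ E, HasD (L e) (D e))
    (hdd : ∀ e ∈ E, ∀ e' ∈ E, e ≠ e' → ∀ n : ℤ, n ∈ L e → n ∉ L e')
    (hcap : ∀ (N : ℕ) (y : ℝ), 1 ≤ N → 1 ≤ y →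
      cp {n : ℤ | (∃ e ∈ E, n ∈ L e) ∧ ∀ e ∈ E, (e : ℝ) ≤ y → n ∉ L e} N ≤ C * N / y ^ c)
    (hs : Summable fun e : E => D e) {A : Set ℤ} (hA : A ⊆ E) :
    (Summable fun e : A => D e) ∧ HasD (⋃ e ∈ A, L e) (∑' e : A, D e) := by
  classical
  have hsA : Summable fun e : A => D e :=
    hs.comp_injective (i := fun e : A => (⟨e.1, hA e.2⟩ : E)) fun a b hab =>
      Subtype.ext (congrArg (fun e : E => (e : ℤ)) hab)
  refine ⟨hsA, ?_⟩
  set s : ℝ := ∑' e : A, D e with hsdef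
  unfold HasD
  rw [Metric.tendsto_atTop]
  intro ε hε
  -- a finite set of indices
  have h1 := hsA.hasSum
  have h2 : ∀ᶠ F : Finset A in atTop, dist (∑ e ∈ F, D e) s < ε / 3 :=
    Metric.tendsto_nhds.1 h1 _ (by positivity)
  obtain ⟨F₀, hF₀⟩ := eventually_atTop.1 h2
  -- the level `y`
  have hlim : Tendsto (fun y : ℝ => C / y ^ c) atTop (𝓝 0) :=
    (tendsto_rpow_atTop hc).const_div_atTop C
  obtain ⟨B, hB⟩ : ∃ B : ℝ, ∀ e ∈ F₀, ((e : ℤ) : ℝ) ≤ B := by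
    obtain ⟨B, hB⟩ := (F₀.image fun e : A => ((e : ℤ) : ℝ)).bddAbove
    exact ⟨B, fun e he => hB (Finset.mem_coe.2 (Finset.mem_image_of_mem _ he))⟩
  obtain ⟨y, hy1, hyB, hyC⟩ : ∃ y : ℝ, 1 ≤ y ∧ B ≤ y ∧ C / y ^ c < ε / 3 := by
    have h3 := hlim.eventually_lt_const (show (0 : ℝ) < ε / 3 by positivity)
    obtain ⟨y, ⟨h4, h5⟩, h6⟩ :=
      (((eventually_ge_atTop (1 : ℝ)).and (eventually_ge_atTop B)).and h3).exists
    exact ⟨y, h4, h5, h6⟩
  -- the elements of `A` up to `y`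
  have hf : {e : ℤ | e ∈ A ∧ (e : ℝ) ≤ y}.Finite := by
    apply (Set.finite_Icc (0 : ℤ) ⌈y⌉).subset
    rintro e ⟨h1, h2⟩
    refine ⟨hE e (hA h1), ?_⟩
    have h3 : (e : ℝ) ≤ (⌈y⌉ : ℤ) := h2.trans (Int.le_ceil y)
    exact_mod_cast h3
  obtain ⟨F, hF⟩ : ∃ F : Finset ℤ, ∀ e : ℤ, e ∈ F ↔ e ∈ A ∧ (e : ℝ) ≤ y :=
    ⟨hf.toFinset, fun e => by simp⟩
  have hFA : ∀ e ∈ F, e ∈ A := fun e he => ((hF e).1 he).1
  have hsumF : dist (∑ e ∈ F, D e) s < ε / 3 := by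
    have h3 : ∑ e ∈ F, D e = ∑ e ∈ F.attach.image (fun e => (⟨e.1, hFA e.1 e.2⟩ : A)), D e := by
      rw [Finset.sum_image, ← Finset.sum_attach F]
      intro a _ b _ hab
      apply Subtype.ext
      have := congrArg Subtype.val hab
      exact this
    rw [h3]
    apply hF₀
    intro e he
    rw [Finset.mem_image]
    exact ⟨⟨e.1, (hF e.1).2 ⟨e.2, (hB e he).trans hyB⟩⟩, Finset.mem_attach _ _, rfl⟩
  -- the finite union
  have hfin : HasD (⋃ e ∈ F, L e) (∑ e ∈ F, D e) := by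
    unfold HasD
    have h1 : ∀ N : ℕ, cp (⋃ e ∈ F, L e) N / N = ∑ e ∈ F, cp (L e) N / N := by
      intro N
      rw [cp_biUnion, Finset.sum_div]
      intro e he e' he' hne n _ h2
      exact hdd e (hA (hFA e he)) e' (hA (hFA e' he')) hne n h2
    simp only [h1]
    exact tendsto_finsetSum F fun e he => hL e (hA (hFA e he))
  obtain ⟨N₁, hN₁⟩ := Metric.tendsto_atTop.1 hfin (ε / 3) (by positivity)
  refine ⟨max N₁ 1, fun N hN => ?_⟩
  have hN1 : N₁ ≤ N := (le_max_left _ _).trans hN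
  have hN2 : 1 ≤ N := (le_max_right _ _).trans hN
  have hN0 : (0 : ℝ) < N := by exact_mod_cast (by omega : 0 < N)
  have h3 := hN₁ N hN1
  -- comparison
  have hlow : cp (⋃ e ∈ F, L e) N ≤ cp (⋃ e ∈ A, L e) N := by
    refine cp_mono N fun n _ hn => ?_
    simp only [Set.mem_iUnion] at hn ⊢
    obtain ⟨e, he, h4⟩ := hn
    exact ⟨e, hFA e he, h4⟩
  have hup : cp (⋃ e ∈ A, L e) N ≤ cp (⋃ e ∈ F, L e) N + C * N / y ^ c := by
    refine le_trans ?_ (add_le_add le_rfl (hcap N y hN2 hy1))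
    rw [← cp_union]
    · refine cp_mono N fun n _ hn => ?_
      simp only [Set.mem_iUnion] at hn
      obtain ⟨e, he, h4⟩ := hn
      by_cases hey : (e : ℝ) ≤ y
      · left
        simp only [Set.mem_iUnion]
        exact ⟨e, (hF e).2 ⟨he, hey⟩, h4⟩
      · right
        refine ⟨⟨e, hA he, h4⟩, fun e' he' hy' h5 => ?_⟩
        by_cases hee : e = e'
        · rw [hee] at hey
          exact hey hy'
        · exact hdd e (hA he) e' he' hee n h4 h5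
    · intro n _ h4 h5
      simp only [Set.mem_iUnion] at h4
      obtain ⟨e, he, h6⟩ := h4
      exact h5.2 e (hA (hFA e he)) ((hF e).1 he).2 h6
  rw [Real.dist_eq, abs_lt] at h3 hsumF ⊢
  have h4 : cp (⋃ e ∈ F, L e) N / N ≤ cp (⋃ e ∈ A, L e) N / N :=
    div_le_div_of_nonneg_right hlow hN0.le
  have h5 : cp (⋃ e ∈ A, L e) N / N ≤ cp (⋃ e ∈ F, L e) N / N + C / y ^ c := by
    rw [div_le_iff₀ hN0, add_mul, div_mul_cancel₀ _ hN0.ne']
    refine hup.trans (le_of_eq ?_)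
    ring
  constructor
  · linarith
  · linarith

end Pool.Agent.N681.AI
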